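import Pool.Agent.U865.PV.Shape

/-!
# The order of a group with full action
-/

set_option autoImplicit false

open scoped Classical

namespace Pool.Agent.U865.PV

section

variable {G : Type} [Group G] [Finite G]

/-- The action on the quotient of order `e`. -/
theorem exists_hom {c : G} (hconj : ∀ g, ∃ j : ℕ, g * c * g⁻¹ = c ^ j) {e : ℕ}
    (he : e ∣ orderOf c) : ∃ κ : G →* (ZMod e)ˣ, ∀ (g : G) (j : ℕ), g * c * g⁻¹ = c ^ j →
      (κ g : ZMod e) = j := by
  choose j hj using hconj
  have hcop : ∀ g, Nat.Coprime (j g) e := fun g =>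
    (Nat.Coprime.coprime_dvd_left he (coprime_of_conj (hj g))).symm
  have huniq : ∀ a b : ℕ, c ^ a = c ^ b → (a : ZMod e) = b := by
    intro a b h
    rw [ZMod.natCast_eq_natCast_iff]
    exact (pow_eq_pow_iff_modEq.1 h).of_dvd he
  refine ⟨MonoidHom.mk' (fun g => ZMod.unitOfCoprime (j g) (hcop g)) fun g h => ?_,
    fun g i hi => ?_⟩
  · apply Units.ext
    rw [Units.val_mul, ZMod.coe_unitOfCoprime, ZMod.coe_unitOfCoprime, ZMod.coe_unitOfCoprime,
      ← Nat.cast_mul]
    apply huniq
    rw [← hj]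
    have h1 : g * h * c * (g * h)⁻¹ = g * (h * c * h⁻¹) * g⁻¹ := by group
    rw [h1, hj h, ← conj_pow, hj g, pow_mul]
  · change ((ZMod.unitOfCoprime (j g) (hcop g) : (ZMod e)ˣ) : ZMod e) = i
    rw [ZMod.coe_unitOfCoprime]
    apply huniq
    rw [← hj, hi]

/-- For every squarefree divisor `e` of the order of `c` the largest power of two which divides the
number `φ (e)` of automorphisms of a cyclic group of order `e` divides the order of the group. -/
def DegreeBound {G : Type} [Group G] (c : G) : Prop :=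
  ∀ e, Squarefree e → e ∣ orderOf c → 2 ^ e.totient.factorization 2 ∣ Nat.card G

theorem degreeBound {c : G} (hc : FullAction c) : DegreeBound c := by
  intro e hsq he
  obtain ⟨-, hconj, -, hfull⟩ := hc
  have : NeZero e := ⟨hsq.ne_zero⟩
  have : Fact (Nat.Prime 2) := ⟨Nat.prime_two⟩
  obtain ⟨κ, hκ⟩ := exists_hom hconj he
  obtain ⟨Q⟩ : Nonempty (Sylow 2 (ZMod e)ˣ) := inferInstance
  have h1 : Nat.card Q = 2 ^ e.totient.factorization 2 := by
    rw [Sylow.card_eq_multiplicity, Nat.card_eq_fintype_card, ZMod.card_units_eq_totient]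
  have h2 : (Q : Subgroup (ZMod e)ˣ) ≤ κ.range := by
    intro u hu
    have h3 : ∃ k : ℕ, u ^ 2 ^ k = 1 := by
      obtain ⟨k, hk⟩ := Q.2 ⟨u, hu⟩
      exact ⟨k, congrArg Subtype.val hk⟩
    obtain ⟨g, j, hg, hj⟩ := hfull e hsq he u h3
    refine ⟨g, Units.ext ?_⟩
    rw [hκ g j hg, hj]
  rw [← h1]
  exact (Subgroup.card_dvd_of_le h2).trans (Subgroup.card_range_dvd κ)

end

end Pool.Agent.U865.PV
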