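import Pool.Agent.U865.PV.Main

/-!
# All extensions of the base field
-/

set_option autoImplicit false

open Module NumberField IntermediateField Polynomial

namespace Pool.Agent.U865.PV

/-- A Galois extension of `F` which contains a given extension of `K`. -/
theorem exists_galois (K F M : Type) [Field K] [Field F] [NumberField F] [Field M]
    [NumberField K] [NumberField M] [Algebra K F] [Algebra K M] :
    ∃ (L : Type) (_ : Field L) (_ : NumberField L) (_ : Algebra K L) (_ : Algebra F L),
      IsScalarTower K F L ∧ IsGalois F L ∧ Nonempty (M →ₐ[K] L) := by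
  let pb := Field.powerBasisOfFiniteOfSeparable K M
  let f : F[X] := (minpoly K pb.gen).map (algebraMap K F)
  let L := f.SplittingField
  have h1 : NumberField L := NumberField.of_module_finite F L
  have h2 : Normal F L := Normal.of_isSplittingField f
  have h3 : IsGalois F L := ⟨⟩
  have h4 : IsScalarTower K F L := inferInstance
  have h5 : (f.map (algebraMap F L)).degree ≠ 0 := by
    rw [degree_map, degree_map]
    exact (minpoly.degree_pos (Algebra.IsIntegral.isIntegral pb.gen)).ne'
  obtain ⟨β, hβ⟩ := (SplittingField.splits f).exists_eval_eq_zero h5
  have h6 : aeval β (minpoly K pb.gen) = 0 := by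
    rw [eval_map_algebraMap, aeval_map_algebraMap] at hβ
    exact hβ
  exact ⟨L, inferInstance, h1, inferInstance, inferInstance, h4, h3, ⟨pb.lift β h6⟩⟩

end Pool.Agent.U865.PV
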