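import Pool.Agent.U865.PV.Per

/-!
# The shape of the Galois group of a maximal failure
-/

set_option autoImplicit false

open Module Representation Polynomial
open scoped Classical

namespace Pool.Agent.U865.PV

open Pool.Agent.U865.PP

/-- The element `c` of `G` generates a normal cyclic subgroup of odd order `n` whose quotient is a
`2`-group, and for every squarefree divisor `e` of `n` every automorphism `x ↦ x ^ u`, of order a power
of two, of the quotient of order `e` of this cyclic group is induced by an inner automorphism of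
`G`. -/
def FullAction {G : Type} [Group G] (c : G) : Prop :=
  Odd (orderOf c) ∧ (∀ g, ∃ j : ℕ, g * c * g⁻¹ = c ^ j) ∧
    (∀ g : G, ∃ k : ℕ, g ^ 2 ^ k ∈ Subgroup.zpowers c) ∧
    ∀ e, Squarefree e → e ∣ orderOf c → ∀ u : (ZMod e)ˣ, (∃ k : ℕ, u ^ 2 ^ k = 1) →
      ∃ (g : G) (j : ℕ), g * c * g⁻¹ = c ^ j ∧ (j : ZMod e) = u

section

variable {G : Type} [Group G] [Finite G]

omit [Finite G] in
lemma perm_top (g : G) : perm (⊤ : Subgroup G) g = 1 := by
  have h : Subsingleton (G ⧸ (⊤ : Subgroup G)) := QuotientGroup.subsingleton_quotient_top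
  have h1 : Nat.card {c : G ⧸ (⊤ : Subgroup G) // g • c = c} = 1 := by
    rw [Nat.card_eq_one_iff_unique]
    exact ⟨inferInstance, ⟨⟨(1 : G), Subsingleton.elim _ _⟩⟩⟩
  rw [perm, fix, h1]
  norm_num

theorem two_hyper_of_signs {W : (G → ℚ) → ℤˣ} (hW : Formal W)
    (h1 : ∀ H : Subgroup G, H ≠ ⊤ → W (perm H) = 1) (htop : W (perm (⊤ : Subgroup G)) = -1) :
    TwoHyper G := by
  let _ : Fintype (Subgroup G) := Fintype.ofFinite _
  obtain ⟨m, n, hm, hn, hsum⟩ := two_local G
  by_cases h0 : n ⊤ = 0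
  · exfalso
    have hrel : ∑ H, (n H).toNat • perm H = m • perm (⊤ : Subgroup G) +
        ∑ H, (-n H).toNat • perm H := by
      funext g
      have h2 : ∑ H, n H * fix H g = m := by
        rw [← hsum g, finsum_eq_sum_of_fintype]
        rfl
      have h3 : ∀ H : Subgroup G, ((n H).toNat : ℤ) = n H + ((-n H).toNat : ℤ) := by
        intro H
        omega
      rw [Pi.add_apply, Finset.sum_apply, Finset.sum_apply, Pi.smul_apply, perm_top]
      simp only [Pi.smul_apply, nsmul_eq_mul, mul_one]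
      have h4 : ∑ H, ((n H).toNat : ℤ) * fix H g = m + ∑ H, ((-n H).toNat : ℤ) * fix H g := by
        rw [← h2, ← Finset.sum_add_distrib]
        refine Finset.sum_congr rfl fun H _ => ?_
        rw [h3 H, add_mul]
      unfold perm
      exact_mod_cast h4
    have hW1 : ∀ a : Subgroup G → ℕ, a ⊤ = 0 → W (∑ H, a H • perm H) = 1 := by
      intro a ha
      rw [hW.sum _ _ fun H _ => (isChar_perm H).nsmul _]
      refine Finset.prod_eq_one fun H _ => ?_
      rw [hW.nsmul (isChar_perm H)]
      by_cases hH : H = ⊤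
      · rw [hH, ha, pow_zero]
      · rw [h1 H hH, one_pow]
    have h5 := congrArg W hrel
    rw [hW1 (fun H => (n H).toNat) (by rw [h0]; rfl), hW.add _ _ ((isChar_perm ⊤).nsmul m)
      (IsChar.sum _ _ fun H _ => (isChar_perm H).nsmul _),
      hW1 (fun H => (-n H).toNat) (by rw [h0]; rfl), hW.nsmul (isChar_perm ⊤), htop,
      hm.neg_one_pow] at h5
    exact absurd h5 (by decide)
  · exact (hn ⊤ h0).of_equiv Subgroup.topEquiv

/-- **The shape of the group.** -/
theorem shape {W : (G → ℚ) → ℤˣ} (hW : Formal W)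
    (h1 : ∀ H : Subgroup G, H ≠ ⊤ → W (perm H) = 1) (htop : W (perm (⊤ : Subgroup G)) = -1) :
    ∃ c : G, FullAction c := by
  obtain ⟨c, hodd, hconj, hpow⟩ := two_hyper_of_signs hW h1 htop
  have hconj' : ∀ g, ∃ j : ℕ, g * c * g⁻¹ = c ^ j := by
    intro g
    have h2 := hconj g
    rw [← mem_powers_iff_mem_zpowers] at h2
    obtain ⟨j, hj⟩ := h2
    exact ⟨j, hj.symm⟩
  refine ⟨c, hodd, hconj', hpow, fun e hsq he u ⟨k, hk⟩ => ?_⟩
  exact full_action hW h1 htop hodd hconj' hpow hsq he u hk

omit [Finite G] in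
/-- The trivial group. -/
theorem fullAction_of_subsingleton [Subsingleton G] : ∃ c : G, FullAction c := by
  refine ⟨1, by rw [orderOf_one]; exact odd_one, fun g => ⟨0, Subsingleton.elim _ _⟩,
    fun g => ⟨0, ?_⟩, fun e hsq he u hu => ?_⟩
  · rw [Subsingleton.elim (g ^ 2 ^ 0) 1]
    exact Subgroup.one_mem _
  · rw [orderOf_one, Nat.dvd_one] at he
    subst he
    exact ⟨1, 0, Subsingleton.elim _ _, Subsingleton.elim _ _⟩

end

end Pool.Agent.U865.PV
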