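import Pool.Agent.U865.PV.Cyc

/-!
# The decomposition of a permutation representation
-/

set_option autoImplicit false

open Module Representation Polynomial
open scoped Classical

namespace Pool.Agent.U865.PV

section

variable {G : Type} [Group G]

/-- The restriction of a representation to a stable subspace. -/
def sub {U : Type} [AddCommGroup U] [Module ℚ U] (ρ : Representation ℚ G U) (S : Submodule ℚ U)
    (hS : ∀ g, ∀ v ∈ S, ρ g v ∈ S) : Representation ℚ G S where
  toFun g := (ρ g).restrict (hS g)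
  map_one' := by
    ext v
    change ρ 1 (v : U) = v
    rw [map_one]
    rfl
  map_mul' g g' := by
    ext v
    change ρ (g * g') (v : U) = ρ g (ρ g' v)
    rw [map_mul]
    rfl

theorem sub_character_add {U : Type} [AddCommGroup U] [Module ℚ U] [FiniteDimensional ℚ U]
    (ρ : Representation ℚ G U) {S₁ S₂ S₃ : Submodule ℚ U} (h₁ : ∀ g, ∀ v ∈ S₁, ρ g v ∈ S₁)
    (h₂ : ∀ g, ∀ v ∈ S₂, ρ g v ∈ S₂) (h₃ : ∀ g, ∀ v ∈ S₃, ρ g v ∈ S₃) (hd : Disjoint S₁ S₂)
    (hs : S₁ ⊔ S₂ = S₃) :
    (sub ρ S₃ h₃).character = (sub ρ S₁ h₁).character + (sub ρ S₂ h₂).character := by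
  rw [← dsum_character]
  have h13 : S₁ ≤ S₃ := hs ▸ le_sup_left
  have h23 : S₂ ≤ S₃ := hs ▸ le_sup_right
  let f : (S₁ × S₂) →ₗ[ℚ] S₃ := LinearMap.coprod (Submodule.inclusion h13) (Submodule.inclusion h23)
  have hf : ∀ x, (f x : U) = x.1 + x.2 := fun x => rfl
  have hinj : Function.Injective f := by
    rw [← LinearMap.ker_eq_bot, LinearMap.ker_eq_bot']
    rintro ⟨a, b⟩ h
    have h1 : (a : U) + b = 0 := by
      rw [← hf (a, b), h]
      rfl
    have h2 : (a : U) ∈ S₁ ⊓ S₂ := by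
      refine ⟨a.2, ?_⟩
      rw [eq_neg_of_add_eq_zero_left h1]
      exact S₂.neg_mem b.2
    rw [hd.eq_bot] at h2
    have h3 : (a : U) = 0 := (Submodule.mem_bot ℚ).1 h2
    have h4 : (b : U) = 0 := by rwa [h3, zero_add] at h1
    exact Prod.ext (Subtype.ext h3) (Subtype.ext h4)
  have hsurj : Function.Surjective f := by
    rintro ⟨x, hx⟩
    rw [← hs] at hx
    obtain ⟨a, ha, b, hb, hab⟩ := Submodule.mem_sup.1 hx
    exact ⟨(⟨a, ha⟩, ⟨b, hb⟩), Subtype.ext hab⟩
  let e : (S₁ × S₂) ≃ₗ[ℚ] S₃ := LinearEquiv.ofBijective f ⟨hinj, hsurj⟩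
  ext g
  rw [Representation.character, Representation.character]
  have h4 : (sub ρ S₃ h₃) g = e.conj ((dsum (sub ρ S₁ h₁) (sub ρ S₂ h₂)) g) := by
    ext x
    obtain ⟨y, rfl⟩ := e.surjective x
    rw [LinearEquiv.conj_apply_apply, LinearEquiv.symm_apply_apply]
    change ρ g ((y.1 : U) + y.2) = ρ g y.1 + ρ g y.2
    rw [map_add]
  rw [h4, LinearMap.trace_conj']

/-- A polynomial whose kernel is preserved by the group. -/
def Good (n : ℕ) (p : ℚ[X]) : Prop := ∀ j, Nat.Coprime n j → p ∣ expand ℚ j p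

theorem good_cyclotomic {n e : ℕ} (he : e ∣ n) (he0 : e ≠ 0) : Good n (cyclotomic e ℚ) := by
  intro j hj
  have h1 : IsPrimitiveRoot (Complex.exp (2 * Real.pi * Complex.I / e)) e :=
    Complex.isPrimitiveRoot_exp e he0
  have h2 := h1.pow_of_coprime j (Nat.Coprime.coprime_dvd_left he hj).symm
  rw [cyclotomic_eq_minpoly_rat h1 (Nat.pos_of_ne_zero he0)]
  refine minpoly.dvd _ _ ?_
  rw [← cyclotomic_eq_minpoly_rat h1 (Nat.pos_of_ne_zero he0), expand_aeval,
    cyclotomic_eq_minpoly_rat h2 (Nat.pos_of_ne_zero he0)]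
  exact minpoly.aeval _ _

theorem Good.mul {n : ℕ} {p q : ℚ[X]} (hp : Good n p) (hq : Good n q) : Good n (p * q) := by
  intro j hj
  rw [map_mul]
  exact mul_dvd_mul (hp j hj) (hq j hj)

theorem Good.one {n : ℕ} : Good n 1 := fun j _ => by rw [map_one]

theorem good_prod {n : ℕ} (D : Finset ℕ) (hD : ∀ e ∈ D, e ∣ n ∧ e ≠ 0) :
    Good n (∏ e ∈ D, cyclotomic e ℚ) := by
  induction D using Finset.induction_on with
  | empty => rw [Finset.prod_empty]; exact Good.one
  | insert a D ha ih =>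
    rw [Finset.prod_insert ha]
    have h1 := hD a (Finset.mem_insert_self a D)
    exact (good_cyclotomic h1.1 h1.2).mul (ih fun e he => hD e (Finset.mem_insert_of_mem he))

variable [Finite G]

theorem stable_of_good {U : Type} [AddCommGroup U] [Module ℚ U] (ρ : Representation ℚ G U)
    {c : G} (hconj : ∀ g, ∃ j : ℕ, g * c * g⁻¹ = c ^ j) {p : ℚ[X]} (hp : Good (orderOf c) p) :
    ∀ g, ∀ v ∈ LinearMap.ker (aeval (ρ c) p), ρ g v ∈ LinearMap.ker (aeval (ρ c) p) := by
  intro g v hv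
  rw [LinearMap.mem_ker] at hv ⊢
  obtain ⟨j, hj⟩ := hconj g⁻¹
  have hcop := coprime_of_conj hj
  have hgg : ρ g⁻¹ * ρ g = 1 := by rw [← map_mul, inv_mul_cancel, map_one]
  have hgg' : ρ g * ρ g⁻¹ = 1 := by rw [← map_mul, mul_inv_cancel, map_one]
  -- conjugation is an algebra homomorphism
  let ψ : Module.End ℚ U →ₐ[ℚ] Module.End ℚ U :=
    { toFun := fun x => ρ g⁻¹ * x * ρ g
      map_one' := by rw [mul_one, hgg]
      map_mul' := fun x y => by
        calc ρ g⁻¹ * (x * y) * ρ g = ρ g⁻¹ * x * 1 * y * ρ g := by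
              rw [mul_one]; simp only [mul_assoc]
          _ = _ := by rw [← hgg']; simp only [mul_assoc]
      map_zero' := by rw [mul_zero, zero_mul]
      map_add' := fun x y => by rw [mul_add, add_mul]
      commutes' := fun q => by rw [← Algebra.commutes, mul_assoc, hgg, mul_one] }
  have h1 : ψ (aeval (ρ c) p) = aeval (ρ c ^ j) p := by
    rw [← aeval_algHom_apply]
    congr 2
    change ρ g⁻¹ * ρ c * ρ g = _
    rw [inv_inv] at hj
    rw [← map_mul, ← map_mul, hj, map_pow]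
  obtain ⟨q, hq⟩ := hp j hcop
  have h2 : aeval (ρ c ^ j) p = aeval (ρ c) q * aeval (ρ c) p := by
    rw [← expand_aeval, hq, map_mul, ← map_mul, ← map_mul, mul_comm]
  have h3 : ρ g⁻¹ (aeval (ρ c) p (ρ g v)) = 0 := by
    have h4 := LinearMap.congr_fun (h1.trans h2) v
    change ρ g⁻¹ (aeval (ρ c) p (ρ g v)) = aeval (ρ c) q (aeval (ρ c) p v) at h4
    rw [h4, hv, map_zero]
  have h5 := congrArg (ρ g) h3
  rw [map_zero] at h5
  have h6 : ∀ w, ρ g (ρ g⁻¹ w) = w := fun w => LinearMap.congr_fun hgg' w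
  rwa [h6] at h5

/-- The part of the representation on which `p (c) = 0`. -/
noncomputable def part {U : Type} [AddCommGroup U] [Module ℚ U] (ρ : Representation ℚ G U)
    {c : G} (hconj : ∀ g, ∃ j : ℕ, g * c * g⁻¹ = c ^ j) {p : ℚ[X]} (hp : Good (orderOf c) p) :
    Representation ℚ G (LinearMap.ker (aeval (ρ c) p)) :=
  sub ρ _ (stable_of_good ρ hconj hp)

theorem part_congr {U : Type} [AddCommGroup U] [Module ℚ U] (ρ : Representation ℚ G U)
    {c : G} (hconj : ∀ g, ∃ j : ℕ, g * c * g⁻¹ = c ^ j) {p q : ℚ[X]} (hp : Good (orderOf c) p)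
    (hq : Good (orderOf c) q) (h : p = q) :
    (part ρ hconj hp).character = (part ρ hconj hq).character := by
  subst h
  rfl

theorem part_mul {U : Type} [AddCommGroup U] [Module ℚ U] [FiniteDimensional ℚ U]
    (ρ : Representation ℚ G U) {c : G} (hconj : ∀ g, ∃ j : ℕ, g * c * g⁻¹ = c ^ j) {p q : ℚ[X]}
    (hp : Good (orderOf c) p) (hq : Good (orderOf c) q) (h : IsCoprime p q) :
    (part ρ hconj (hp.mul hq)).character = (part ρ hconj hp).character +
      (part ρ hconj hq).character :=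
  sub_character_add ρ _ _ _ (disjoint_ker_aeval_of_isCoprime _ h)
    (sup_ker_aeval_eq_ker_aeval_mul_of_coprime _ h)

theorem part_prod {W : (G → ℚ) → ℤˣ} (hW : Formal W) {U : Type} [AddCommGroup U] [Module ℚ U]
    [FiniteDimensional ℚ U] (ρ : Representation ℚ G U) {c : G}
    (hconj : ∀ g, ∃ j : ℕ, g * c * g⁻¹ = c ^ j) (S : ℕ → ℤˣ)
    (hS : ∀ e, ∀ he : e ∣ orderOf c, ∀ h0 : e ≠ 0,
      W (part ρ hconj (good_cyclotomic he h0)).character = S e) (D : Finset ℕ)
    (hD : ∀ e ∈ D, e ∣ orderOf c ∧ e ≠ 0) :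
    W (part ρ hconj (good_prod D hD)).character = ∏ e ∈ D, S e := by
  induction D using Finset.induction_on with
  | empty =>
    have h0 : ∏ e ∈ (∅ : Finset ℕ), S e = 1 := Finset.prod_empty
    rw [h0, ← hW.zero]
    congr 1
    rw [part_congr ρ hconj (good_prod ∅ hD) Good.one (by rw [Finset.prod_empty])]
    ext g
    have h1 : LinearMap.ker (aeval (ρ c) (1 : ℚ[X])) = ⊥ := by
      rw [map_one]
      exact LinearMap.ker_id
    have h2 : Subsingleton (LinearMap.ker (aeval (ρ c) (1 : ℚ[X]))) := by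
      rw [h1]
      infer_instance
    have h3 : (part ρ hconj (Good.one (n := orderOf c))) g = 0 := Subsingleton.elim _ _
    rw [Representation.character, h3, map_zero]
    rfl
  | insert a D ha ih =>
    have h1 := hD a (Finset.mem_insert_self a D)
    have h2 : ∀ e ∈ D, e ∣ orderOf c ∧ e ≠ 0 := fun e he => hD e (Finset.mem_insert_of_mem he)
    have h0 : ∏ e ∈ insert a D, S e = S a * ∏ e ∈ D, S e := Finset.prod_insert ha
    rw [h0, ← ih h2, ← hS a h1.1 h1.2, ← hW.add]
    · congr 1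
      rw [← part_mul ρ hconj (good_cyclotomic h1.1 h1.2) (good_prod D h2)]
      · exact part_congr ρ hconj _ _ (Finset.prod_insert ha)
      · refine IsCoprime.prod_right fun e he => ?_
        refine cyclotomic.isCoprime_rat ?_
        rintro rfl
        exact ha he
    · exact ⟨_, inferInstance, inferInstance, _, inferInstance, rfl⟩
    · exact ⟨_, inferInstance, inferInstance, _, inferInstance, rfl⟩

end

end Pool.Agent.U865.PV
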