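import Pool.Agent.U865.PV.Shape
import Pool.Agent.R333.BR.Rank

/-!
# Abelian varieties over number fields: points and Galois descent
-/

set_option autoImplicit false

open CategoryTheory AlgebraicGeometry MonObj

namespace Pool.Agent.U865.PV

/-! ### Points of a scheme over a field -/

section

variable {F L : Type} [Field F] [Field L] (i : F →+* L) {X : Scheme.{0}}

lemma spec_cancel {P Q : Spec (CommRingCat.of F) ⟶ X}
    (h : Spec.map (CommRingCat.ofHom i) ≫ P = Spec.map (CommRingCat.ofHom i) ≫ Q) : P = Q := by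
  obtain ⟨⟨x, φ⟩, rfl⟩ := (Scheme.SpecToEquivOfField F X).symm.surjective P
  obtain ⟨⟨y, ψ⟩, rfl⟩ := (Scheme.SpecToEquivOfField F X).symm.surjective Q
  have h1 : ∀ (z : X) (χ : X.residueField z ⟶ .of F), Spec.map (CommRingCat.ofHom i) ≫
      (Scheme.SpecToEquivOfField F X).symm ⟨z, χ⟩ =
      (Scheme.SpecToEquivOfField L X).symm ⟨z, χ ≫ CommRingCat.ofHom i⟩ := by
    intro z χ
    change Spec.map (CommRingCat.ofHom i) ≫ Spec.map χ ≫ X.fromSpecResidueField z =
      Spec.map (χ ≫ CommRingCat.ofHom i) ≫ X.fromSpecResidueField z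
    rw [Spec.map_comp, Category.assoc]
  rw [h1, h1] at h
  have h2 := (Scheme.SpecToEquivOfField L X).symm.injective h
  rw [Scheme.SpecToEquivOfField_eq_iff] at h2
  obtain ⟨e, h3⟩ := h2
  congr 1
  rw [Scheme.SpecToEquivOfField_eq_iff]
  refine ⟨e, ?_⟩
  ext a
  have h4 := congrArg (fun f => f.hom a) h3
  exact i.injective h4

lemma spec_descend {H : Set (L ≃+* L)} (hF : ∀ x : L, (∀ σ ∈ H, σ x = x) → x ∈ i.range)
    (P : Spec (CommRingCat.of L) ⟶ X)
    (hP : ∀ σ ∈ H, Spec.map (CommRingCat.ofHom (σ : L →+* L)) ≫ P = P) :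
    ∃ Q : Spec (CommRingCat.of F) ⟶ X, Spec.map (CommRingCat.ofHom i) ≫ Q = P := by
  obtain ⟨⟨x, φ⟩, rfl⟩ := (Scheme.SpecToEquivOfField L X).symm.surjective P
  have h1 : ∀ σ ∈ H, φ ≫ CommRingCat.ofHom (σ : L →+* L) = φ := by
    intro σ hσ
    have h2 := hP σ hσ
    change Spec.map (CommRingCat.ofHom (σ : L →+* L)) ≫ Spec.map φ ≫ X.fromSpecResidueField x =
      Spec.map φ ≫ X.fromSpecResidueField x at h2
    rw [← Category.assoc, cancel_mono, ← Spec.map_comp, Spec.map_inj] at h2
    exact h2
  have h3 : ∀ a, φ.hom a ∈ i.range := by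
    intro a
    refine hF _ fun σ hσ => ?_
    exact congrArg (fun f => f.hom a) (h1 σ hσ)
  let j : F ≃+* i.range := RingEquiv.ofBijective i.rangeRestrict
    ⟨fun a b h => i.injective (congrArg Subtype.val h), i.rangeRestrict_surjective⟩
  let ψ : X.residueField x →+* F := (j.symm : i.range →+* F).comp (φ.hom.codRestrict i.range h3)
  have h4 : CommRingCat.ofHom ψ ≫ CommRingCat.ofHom i = φ := by
    ext a
    change i (j.symm ⟨φ.hom a, h3 a⟩) = φ.hom a
    have h5 : j (j.symm ⟨φ.hom a, h3 a⟩) = ⟨φ.hom a, h3 a⟩ := j.apply_symm_apply _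
    exact congrArg Subtype.val h5
  refine ⟨Spec.map (CommRingCat.ofHom ψ) ≫ X.fromSpecResidueField x, ?_⟩
  rw [← Category.assoc, ← Spec.map_comp, h4]
  rfl

end

/-! ### Abelian varieties -/

/-- An abelian variety over the field `K`: a group scheme over `K` which is proper and geometrically
integral. -/
structure AbVar (K : Type) [Field K] where
  /-- the scheme over `K` -/
  X : Over (Spec (CommRingCat.of K))
  /-- the group law -/
  grp : GrpObj X
  /-- it is proper -/
  proper : IsProper X.hom
  /-- it is geometrically integral -/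
  geom : GeometricallyIntegral X.hom

attribute [instance] AbVar.grp AbVar.proper AbVar.geom

/-- The spectrum of the extension `F` of `K`, as a scheme over `K`. -/
noncomputable def spec (K F : Type) [Field K] [Field F] [Algebra K F] :
    Over (Spec (CommRingCat.of K)) :=
  Over.mk (Spec.map (CommRingCat.ofHom (algebraMap K F)))

/-- The points of the abelian variety `A` over `K` in the extension `F` of `K`: the morphisms over `K`
from the spectrum of `F` to `A`. -/
def PtHom {K : Type} [Field K] (A : AbVar K) (F : Type) [Field F] [Algebra K F] : Type :=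
  spec K F ⟶ A.X

/-- The group `A(F)` of the points of the abelian variety `A` over `K` in the extension `F` of `K`,
written additively. -/
def Pts {K : Type} [Field K] (A : AbVar K) (F : Type) [Field F] [Algebra K F] : Type :=
  Additive (PtHom A F)

section

variable {K : Type} [Field K] (A : AbVar K)

noncomputable instance (F : Type) [Field F] [Algebra K F] : AddCommGroup (Pts A F) :=
  letI : IsCommMonObj A.X := isCommMonObj_of_isProper_of_geometricallyIntegral A.X
  inferInstanceAs (AddCommGroup (Additive (spec K F ⟶ A.X)))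

variable {F F' F'' : Type} [Field F] [Algebra K F] [Field F'] [Algebra K F'] [Field F'']
  [Algebra K F'']

/-- The morphism between the spectra. -/
noncomputable def specMap (f : F →ₐ[K] F') : spec K F' ⟶ spec K F :=
  Over.homMk (Spec.map (CommRingCat.ofHom (f : F →+* F'))) (by
    change Spec.map (CommRingCat.ofHom (f : F →+* F')) ≫
      Spec.map (CommRingCat.ofHom (algebraMap K F)) = Spec.map (CommRingCat.ofHom (algebraMap K F'))
    rw [← Spec.map_comp, ← CommRingCat.ofHom_comp, AlgHom.comp_algebraMap])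

variable {A} in
/-- The point over `F'` defined by a point over `F` and a homomorphism `F → F'` over `K`. -/
noncomputable def PtHom.map (f : F →ₐ[K] F') (P : PtHom A F) : PtHom A F' :=
  CategoryStruct.comp (specMap f) P

/-- The map `A(F) → A(F')` given by a homomorphism `F → F'` over `K`. -/
noncomputable def mpFun (f : F →ₐ[K] F') (P : Pts A F) : Pts A F' :=
  Additive.ofMul (PtHom.map f P.toMul)

lemma mpFun_zero (f : F →ₐ[K] F') : mpFun A f 0 = 0 := by
  have h := MonObj.comp_one (M := A.X) (specMap f)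
  exact congrArg Additive.ofMul h

lemma mpFun_add (f : F →ₐ[K] F') (P Q : Pts A F) :
    mpFun A f (P + Q) = mpFun A f P + mpFun A f Q := by
  have h := MonObj.comp_mul (specMap f) (P.toMul : spec K F ⟶ A.X) (Q.toMul : spec K F ⟶ A.X)
  exact congrArg Additive.ofMul h

/-- The homomorphism `A(F) → A(F')`. -/
noncomputable def mp (f : F →ₐ[K] F') : Pts A F →+ Pts A F' where
  toFun := mpFun A f
  map_zero' := mpFun_zero A f
  map_add' := mpFun_add A f

/-- A point as a morphism. -/
def homOf {A : AbVar K} (P : Pts A F) : spec K F ⟶ A.X := Additive.toMul P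

lemma homOf_inj {A : AbVar K} {P Q : Pts A F} (h : homOf P = homOf Q) : P = Q := h

lemma homOf_mp (f : F →ₐ[K] F') (P : Pts A F) : homOf (mp A f P) = specMap f ≫ homOf P := rfl

theorem mp_mp (f : F →ₐ[K] F') (g : F' →ₐ[K] F'') (P : Pts A F) :
    mp A g (mp A f P) = mp A (g.comp f) P := by
  apply homOf_inj
  rw [homOf_mp, homOf_mp, homOf_mp, ← Category.assoc]
  congr 1
  ext1
  change Spec.map (CommRingCat.ofHom (g : F' →+* F'')) ≫ Spec.map (CommRingCat.ofHom (f : F →+* F'))
    = Spec.map (CommRingCat.ofHom ((g.comp f : F →ₐ[K] F'') : F →+* F''))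
  rw [← Spec.map_comp, ← CommRingCat.ofHom_comp]
  rfl

theorem mp_id (P : Pts A F) : mp A (AlgHom.id K F) P = P := by
  apply homOf_inj
  rw [homOf_mp]
  have h : specMap (AlgHom.id K F) = 𝟙 (spec K F) := by
    ext1
    change Spec.map (CommRingCat.ofHom (RingHom.id F)) = 𝟙 (Spec (CommRingCat.of F))
    exact Spec.map_id _
  rw [h, Category.id_comp]

theorem mp_inj (f : F →ₐ[K] F') : Function.Injective (mp A f) := by
  intro P Q h
  have h1 : (specMap f ≫ homOf P).left = (specMap f ≫ homOf Q).left := by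
    rw [← homOf_mp, ← homOf_mp, h]
  have h2 : (homOf P).left = (homOf Q).left := spec_cancel (f : F →+* F') h1
  apply homOf_inj
  ext1
  exact h2

theorem mp_descend (f : F →ₐ[K] F') {H : Set (F' ≃ₐ[K] F')}
    (hF : ∀ x : F', (∀ σ ∈ H, σ x = x) → ∃ y, f y = x) (P : Pts A F')
    (hP : ∀ σ ∈ H, mp A (σ : F' →ₐ[K] F') P = P) : ∃ Q, mp A f Q = P := by
  let H' : Set (F' ≃+* F') := (fun σ : F' ≃ₐ[K] F' => (σ : F' ≃+* F')) '' H
  have hF' : ∀ x : F', (∀ σ ∈ H', σ x = x) → x ∈ (f : F →+* F').range := by
    intro x hx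
    exact hF x fun σ hσ => hx _ ⟨σ, hσ, rfl⟩
  obtain ⟨Q, hQ⟩ := spec_descend (f : F →+* F') hF' (homOf P).left (by
    rintro _ ⟨σ, hσ, rfl⟩
    have h1 : (specMap (σ : F' →ₐ[K] F') ≫ homOf P).left = (homOf P).left := by
      rw [← homOf_mp, hP σ hσ]
    exact h1)
  have hw : Q ≫ A.X.hom = Spec.map (CommRingCat.ofHom (algebraMap K F)) := by
    apply spec_cancel (f : F →+* F')
    rw [← Category.assoc, hQ]
    have h2 := Over.w (homOf P)
    have h3 := Over.w (specMap f)
    exact h2.trans h3.symm
  let Q' : spec K F ⟶ A.X := Over.homMk (U := spec K F) (V := A.X) Q hw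
  have h4 : specMap f ≫ Q' = homOf P := by
    ext1
    exact hQ
  exact ⟨Additive.ofMul Q', h4⟩

end

end Pool.Agent.U865.PV
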