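import Mathlib

/-!
# Elements of prime order of linear groups over prime fields
-/

set_option autoImplicit false

open Module Polynomial
open scoped Classical TensorProduct

namespace Pool.Agent.U865.PV

/-- The subgroup of `(ZMod q)ˣ` generated by the class of `p` and the elements whose order is a power of
two. -/
def genBy (p q : ℕ) : Subgroup (ZMod q)ˣ :=
  Subgroup.closure {u | (u : ZMod q) = p ∨ ∃ k : ℕ, u ^ 2 ^ k = 1}

/-- **The dimension is at least the order of the group of exponents.** -/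
theorem card_genBy_le {p q : ℕ} [Fact p.Prime] [Fact q.Prime] (hpq : p ≠ q) {V : Type}
    [AddCommGroup V] [Module (ZMod p) V] [FiniteDimensional (ZMod p) V] {G : Type} [Group G]
    (ρ : G →* Module.End (ZMod p) V) (t : G) (ht : ρ t ^ q = 1) (ht1 : ρ t ≠ 1)
    (hQ : ∀ u : (ZMod q)ˣ, (∃ k : ℕ, u ^ 2 ^ k = 1) →
      ∃ (g : G) (j : ℕ), (j : ZMod q) = u ∧ ρ (g * t * g⁻¹) = ρ t ^ j) :
    Nat.card (genBy p q) ≤ finrank (ZMod p) V := by
  let Ω := AlgebraicClosure (ZMod p)
  have hpP : p.Prime := Fact.out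
  have hqP : q.Prime := Fact.out
  let β : Module.End (ZMod p) V →ₐ[ZMod p] Module.End Ω (Ω ⊗[ZMod p] V) :=
    Module.End.baseChangeHom (ZMod p) Ω V
  let T : Module.End Ω (Ω ⊗[ZMod p] V) := β (ρ t)
  have hβ : Function.Injective β := LinearMap.baseChangeHom_injective (ZMod p) V Ω
  have hT : T ^ q = 1 := by rw [← map_pow, ht, map_one]
  have hT1 : T ≠ 1 := by
    intro h
    apply ht1
    apply hβ
    rw [map_one]
    exact h
  have hchar : CharP Ω p := charP_of_injective_algebraMap (algebraMap (ZMod p) Ω).injective p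
  have hcharq : (q : Ω) ≠ 0 := by
    intro h
    rw [CharP.cast_eq_zero_iff Ω p] at h
    exact hpq ((Nat.prime_dvd_prime_iff_eq hpP hqP).1 h)
  have : NeZero (q : Ω) := ⟨hcharq⟩
  -- a nontrivial eigenvalue
  obtain ⟨ζ, hζ, hζT⟩ : ∃ ζ : Ω, IsPrimitiveRoot ζ q ∧ ζ ∈ spectrum Ω T := by
    have h1 : ¬ IsUnit (aeval T (cyclotomic q Ω)) := by
      intro hu
      apply hT1
      have h2 : aeval T (cyclotomic q Ω * (X - 1)) = 0 := by
        rw [cyclotomic_prime_mul_X_sub_one, map_sub, map_pow, aeval_X, map_one, hT, sub_self]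
      rw [map_mul] at h2
      have h3 := (hu.mul_right_eq_zero).1 h2
      rw [map_sub, aeval_X, map_one, sub_eq_zero] at h3
      exact h3
    have h2 : (0 : Ω) ∈ spectrum Ω (aeval T (cyclotomic q Ω)) := by
      rw [spectrum.zero_mem_iff]
      exact h1
    have : Nontrivial (Module.End Ω (Ω ⊗[ZMod p] V)) := ⟨T, 1, hT1⟩
    rw [spectrum.map_polynomial_aeval_of_degree_pos T (cyclotomic q Ω)
      (degree_cyclotomic_pos q Ω hqP.pos)] at h2
    obtain ⟨ζ, h3, h4⟩ := h2
    exact ⟨ζ, (isRoot_cyclotomic_iff).1 h4, h3⟩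
  -- the eigenvalues are permuted
  have hpow2 : ∀ u : (ZMod q)ˣ, (∃ k : ℕ, u ^ 2 ^ k = 1) → ∀ μ : Ω, μ ^ q = 1 →
      μ ∈ spectrum Ω T → μ ^ (u : ZMod q).val ∈ spectrum Ω T := by
    intro u hu μ hμ hμT
    obtain ⟨g, j, hj, hg⟩ := hQ u hu
    have h1 : μ ^ (u : ZMod q).val = μ ^ j := by
      rw [← hj, ZMod.val_natCast, ← pow_eq_pow_mod j hμ]
    rw [h1]
    have h2 : μ ^ j ∈ spectrum Ω (T ^ j) := spectrum.pow_mem_pow T j hμT
    have h3 : T ^ j = β (ρ g) * T * β (ρ g⁻¹) := by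
      rw [← map_pow, ← hg, map_mul, map_mul, map_mul, map_mul]
    have h4 : β (ρ g) * β (ρ g⁻¹) = 1 := by
      rw [← map_mul, ← map_mul, mul_inv_cancel, map_one, map_one]
    have h5 : β (ρ g⁻¹) * β (ρ g) = 1 := by
      rw [← map_mul, ← map_mul, inv_mul_cancel, map_one, map_one]
    let U : (Module.End Ω (Ω ⊗[ZMod p] V))ˣ := ⟨β (ρ g), β (ρ g⁻¹), h4, h5⟩
    have h6 : T ^ j = (U : Module.End Ω (Ω ⊗[ZMod p] V)) * T *
      ((U⁻¹ : (Module.End Ω (Ω ⊗[ZMod p] V))ˣ) : Module.End Ω (Ω ⊗[ZMod p] V)) := h3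
    rw [h6, spectrum.units_conjugate] at h2
    exact h2
  have hpowp : ∀ μ : Ω, μ ∈ spectrum Ω T → μ ^ p ∈ spectrum Ω T := by
    intro μ hμ
    rw [Module.End.mem_spectrum_iff_isRoot_charpoly] at hμ ⊢
    have h1 : T.charpoly = (ρ t).charpoly.map (algebraMap (ZMod p) Ω) :=
      LinearMap.charpoly_baseChange (ρ t) Ω
    rw [h1, IsRoot.def, eval_map_algebraMap] at hμ ⊢
    rw [← expand_aeval, ZMod.expand_card, map_pow, hμ, zero_pow hpP.ne_zero]
  -- the set of exponents
  let S : Set (ZMod q)ˣ := {u | ∀ μ : Ω, μ ^ q = 1 → μ ∈ spectrum Ω T →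
    μ ^ (u : ZMod q).val ∈ spectrum Ω T}
  have hval : ∀ (u v : (ZMod q)ˣ) (μ : Ω), μ ^ q = 1 →
      μ ^ ((u * v : (ZMod q)ˣ) : ZMod q).val = (μ ^ (v : ZMod q).val) ^ (u : ZMod q).val := by
    intro u v μ hμ
    rw [← pow_mul, Units.val_mul, ZMod.val_mul, ← pow_eq_pow_mod _ hμ, mul_comm]
  have hclos : ∀ u ∈ genBy p q, u ∈ S := by
    intro u hu
    have h1 : u ∈ Submonoid.closure {u : (ZMod q)ˣ | (u : ZMod q) = p ∨ ∃ k : ℕ, u ^ 2 ^ k = 1} := by
      rw [← Subgroup.closure_toSubmonoid_of_finite]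
      exact hu
    clear hu
    induction h1 using Submonoid.closure_induction with
    | mem x hx =>
      rcases hx with hx | hx
      · intro μ hμ hμT
        have h2 : μ ^ (x : ZMod q).val = μ ^ p := by
          rw [hx, ZMod.val_natCast, ← pow_eq_pow_mod p hμ]
        rw [h2]
        exact hpowp μ hμT
      · exact hpow2 x hx
    | one =>
      intro μ hμ hμT
      have : Fact (1 < q) := ⟨hqP.one_lt⟩
      rw [Units.val_one, ZMod.val_one, pow_one]
      exact hμT
    | mul x y _ _ hx hy =>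
      intro μ hμ hμT
      rw [hval x y μ hμ]
      refine hx _ ?_ (hy μ hμ hμT)
      rw [← pow_mul, mul_comm, pow_mul, hμ, one_pow]
  -- the injection into the set of the eigenvalues
  have hζq : ζ ^ q = 1 := hζ.pow_eq_one
  let R : Finset Ω := T.charpoly.roots.toFinset
  have hR : ∀ u : genBy p q, ζ ^ ((u : (ZMod q)ˣ) : ZMod q).val ∈ R := by
    intro u
    have h1 := hclos u u.2 ζ hζq hζT
    rw [Module.End.mem_spectrum_iff_isRoot_charpoly] at h1
    rw [Multiset.mem_toFinset, mem_roots (LinearMap.charpoly_monic T).ne_zero]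
    exact h1
  have hinj : Function.Injective fun u : genBy p q =>
      (⟨ζ ^ ((u : (ZMod q)ˣ) : ZMod q).val, hR u⟩ : R) := by
    intro u v h
    have h1 : ζ ^ ((u : (ZMod q)ˣ) : ZMod q).val = ζ ^ ((v : (ZMod q)ˣ) : ZMod q).val :=
      congrArg Subtype.val h
    have h2 := hζ.pow_inj (ZMod.val_lt _) (ZMod.val_lt _) h1
    exact Subtype.ext (Units.ext (ZMod.val_injective q h2))
  calc Nat.card (genBy p q) ≤ Nat.card R := Nat.card_le_card_of_injective _ hinj
    _ = R.card := by rw [Nat.card_eq_fintype_card, Fintype.card_coe]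
    _ ≤ Multiset.card T.charpoly.roots := Multiset.toFinset_card_le _
    _ ≤ T.charpoly.natDegree := card_roots' _
    _ = finrank (ZMod p) V := by
      rw [LinearMap.charpoly_natDegree, Module.finrank_baseChange]

theorem card_genBy_aux {p q m : ℕ} [Fact p.Prime] [Fact q.Prime] (hpq : p ≠ q) {V : Type}
    [AddCommGroup V] [Module (ZMod p) V] (hcard : Nat.card V = p ^ m) {G : Type} [Group G]
    (act : G → V →+ V) (h1 : ∀ v, act 1 v = v) (hmul : ∀ g h v, act (g * h) v = act g (act h v))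
    (t : G) (ht : ∀ v, act (t ^ q) v = v) (ht1 : ∃ v, act t v ≠ v)
    (hQ : ∀ u : (ZMod q)ˣ, (∃ k : ℕ, u ^ 2 ^ k = 1) →
      ∃ (g : G) (j : ℕ), (j : ZMod q) = u ∧ g * t * g⁻¹ = t ^ j) :
    Nat.card (genBy p q) ≤ m := by
  have hfinV : Finite V := Nat.finite_of_card_ne_zero (by
    rw [hcard]
    exact pow_ne_zero m (Fact.out (p := p.Prime)).ne_zero)
  have hfr : finrank (ZMod p) V = m := by
    have h3 : Nat.card V = Nat.card (ZMod p) ^ finrank (ZMod p) V :=
      Module.natCard_eq_pow_finrank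
    rw [hcard, Nat.card_zmod] at h3
    exact (Nat.pow_right_injective (Fact.out (p := p.Prime)).two_le h3).symm
  let ρ : G →* Module.End (ZMod p) V :=
    { toFun := fun g =>
        { toFun := act g
          map_add' := map_add (act g)
          map_smul' := fun r v => ZMod.map_smul (act g) r v }
      map_one' := LinearMap.ext h1
      map_mul' := fun g h => LinearMap.ext (hmul g h) }
  rw [← hfr]
  refine card_genBy_le hpq ρ t ?_ ?_ fun u hu => ?_
  · rw [← map_pow]
    exact LinearMap.ext ht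
  · intro h
    obtain ⟨v, hv⟩ := ht1
    exact hv (LinearMap.congr_fun h v)
  · obtain ⟨g, j, hj, hg⟩ := hQ u hu
    exact ⟨g, j, hj, by rw [hg, map_pow]⟩

/-- The additive form. -/
theorem card_genBy {p q m : ℕ} [Fact p.Prime] [Fact q.Prime] (hpq : p ≠ q) {V : Type}
    [AddCommGroup V] (hp : ∀ v : V, p • v = 0) (hcard : Nat.card V = p ^ m) {G : Type} [Group G]
    (act : G → V →+ V) (h1 : ∀ v, act 1 v = v) (hmul : ∀ g h v, act (g * h) v = act g (act h v))
    (t : G) (ht : ∀ v, act (t ^ q) v = v) (ht1 : ∃ v, act t v ≠ v)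
    (hQ : ∀ u : (ZMod q)ˣ, (∃ k : ℕ, u ^ 2 ^ k = 1) →
      ∃ (g : G) (j : ℕ), (j : ZMod q) = u ∧ g * t * g⁻¹ = t ^ j) :
    Nat.card (genBy p q) ≤ m :=
  @card_genBy_aux p q m _ _ hpq V _ (AddCommGroup.zmodModule hp) hcard G _ act h1 hmul t ht ht1 hQ

end Pool.Agent.U865.PV
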