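import Pool.Agent.U865.PP.Sel

/-!
# Signs of the rational characters of a finite group
-/

set_option autoImplicit false

open Module Representation
open scoped Classical

namespace Pool.Agent.U865.PV

open Pool.Agent.U865.PP

section

variable {G : Type} [Group G]

/-- `χ` is the character of a representation of `G` on a rational vector space of finite dimension. -/
def IsChar (χ : G → ℚ) : Prop :=
  ∃ (V : Type) (_ : AddCommGroup V) (_ : Module ℚ V) (ρ : Representation ℚ G V),
    FiniteDimensional ℚ V ∧ χ = ρ.character

/-- `χ` is the character of a representation of `G` on a rational vector space of finite dimension on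
which a number field of even degree acts by `G`-linear maps. -/
def IsEvenChar (χ : G → ℚ) : Prop :=
  ∃ (V : Type) (_ : AddCommGroup V) (_ : Module ℚ V) (ρ : Representation ℚ G V) (M : Type)
    (_ : Field M) (_ : NumberField M) (_ : Module M V),
    FiniteDimensional ℚ V ∧ Even (finrank ℚ M) ∧ (∀ g (x : M) v, ρ g (x • v) = x • ρ g v) ∧
      χ = ρ.character

/-- The permutation character of `G` on `G / H`. -/
noncomputable def perm (H : Subgroup G) (g : G) : ℚ := (fix H g : ℚ)

/-- `W` assigns signs to the characters of the rational representations of `G`, multiplicatively, with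
the sign `1` for the representations on which a number field of even degree acts. -/
structure Formal (W : (G → ℚ) → ℤˣ) : Prop where
  /-- the sign of a sum -/
  add : ∀ χ χ' : G → ℚ, IsChar χ → IsChar χ' → W (χ + χ') = W χ * W χ'
  /-- the sign is `1` if a number field of even degree acts -/
  even : ∀ χ : G → ℚ, IsEvenChar χ → W χ = 1

theorem Formal.mul {W W' : (G → ℚ) → ℤˣ} (h : Formal W) (h' : Formal W') :
    Formal (fun χ => W χ * W' χ) where
  add χ χ' hχ hχ' := by
    rw [h.add χ χ' hχ hχ', h'.add χ χ' hχ hχ', mul_mul_mul_comm]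
  even χ hχ := by rw [h.even χ hχ, h'.even χ hχ, mul_one]

/-- The direct sum. -/
noncomputable def dsum {V V' : Type} [AddCommGroup V] [Module ℚ V] [AddCommGroup V']
    [Module ℚ V'] (ρ : Representation ℚ G V) (ρ' : Representation ℚ G V') :
    Representation ℚ G (V × V') where
  toFun g := (ρ g).prodMap (ρ' g)
  map_one' := by
    rw [map_one, map_one]
    rfl
  map_mul' g g' := by
    rw [map_mul, map_mul]
    rfl

theorem dsum_character {V V' : Type} [AddCommGroup V] [Module ℚ V] [AddCommGroup V']
    [Module ℚ V'] [FiniteDimensional ℚ V] [FiniteDimensional ℚ V'] (ρ : Representation ℚ G V)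
    (ρ' : Representation ℚ G V') : (dsum ρ ρ').character = ρ.character + ρ'.character := by
  ext g
  exact LinearMap.trace_prodMap' (ρ g) (ρ' g)

theorem IsChar.add {χ χ' : G → ℚ} (h : IsChar χ) (h' : IsChar χ') : IsChar (χ + χ') := by
  obtain ⟨V, _, _, ρ, _, rfl⟩ := h
  obtain ⟨V', _, _, ρ', _, rfl⟩ := h'
  exact ⟨V × V', inferInstance, inferInstance, dsum ρ ρ', inferInstance,
    (dsum_character ρ ρ').symm⟩

theorem IsChar.zero : IsChar (0 : G → ℚ) := by
  refine ⟨PUnit, inferInstance, inferInstance, 1, inferInstance, ?_⟩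
  ext g
  have : (1 : Representation ℚ G PUnit) g = 0 := Subsingleton.elim _ _
  rw [Representation.character, this, map_zero]
  rfl

theorem IsChar.nsmul {χ : G → ℚ} (h : IsChar χ) (n : ℕ) : IsChar (n • χ) := by
  induction n with
  | zero => rw [zero_nsmul]; exact IsChar.zero
  | succ n ih => rw [succ_nsmul]; exact ih.add h

theorem IsChar.sum {ι : Type*} (s : Finset ι) (f : ι → G → ℚ) (h : ∀ i ∈ s, IsChar (f i)) :
    IsChar (∑ i ∈ s, f i) := by
  induction s using Finset.induction_on with
  | empty => rw [Finset.sum_empty]; exact IsChar.zero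
  | insert a s ha ih =>
    rw [Finset.sum_insert ha]
    exact (h a (Finset.mem_insert_self a s)).add
      (ih fun i hi => h i (Finset.mem_insert_of_mem hi))

variable {W : (G → ℚ) → ℤˣ}

theorem Formal.zero (hW : Formal W) : W 0 = 1 := by
  have h := hW.add 0 0 IsChar.zero IsChar.zero
  rw [add_zero] at h
  exact mul_right_cancel (b := W 0) (by rw [one_mul]; exact h.symm)

theorem Formal.nsmul (hW : Formal W) {χ : G → ℚ} (h : IsChar χ) (n : ℕ) :
    W (n • χ) = W χ ^ n := by
  induction n with
  | zero => rw [zero_nsmul, pow_zero, hW.zero]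
  | succ n ih => rw [succ_nsmul, hW.add _ _ (h.nsmul n) h, ih, pow_succ]

theorem Formal.sum (hW : Formal W) {ι : Type*} (s : Finset ι) (f : ι → G → ℚ)
    (h : ∀ i ∈ s, IsChar (f i)) : W (∑ i ∈ s, f i) = ∏ i ∈ s, W (f i) := by
  induction s using Finset.induction_on with
  | empty => rw [Finset.sum_empty, Finset.prod_empty, hW.zero]
  | insert a s ha ih =>
    have h1 : ∀ i ∈ s, IsChar (f i) := fun i hi => h i (Finset.mem_insert_of_mem hi)
    rw [Finset.sum_insert ha, Finset.prod_insert ha,
      hW.add _ _ (h a (Finset.mem_insert_self a s)) (IsChar.sum s f h1), ih h1]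

/-! ### Permutation representations -/

/-- The representation on the functions on `G / H`. -/
def permRep (H : Subgroup G) : Representation ℚ G (G ⧸ H → ℚ) where
  toFun g := LinearMap.funLeft ℚ ℚ fun x : G ⧸ H => g⁻¹ • x
  map_one' := by
    ext f x
    simp [LinearMap.funLeft_apply]
  map_mul' g g' := by
    ext f x
    simp [LinearMap.funLeft_apply, mul_smul]

theorem permRep_apply (H : Subgroup G) (g : G) (f : G ⧸ H → ℚ) (x : G ⧸ H) :
    permRep H g f x = f (g⁻¹ • x) := rfl

theorem fix_inv (H : Subgroup G) (g : G) : fix H g⁻¹ = fix H g := by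
  unfold fix
  congr 1
  refine Nat.card_congr (Equiv.subtypeEquivRight fun c => ?_)
  rw [inv_smul_eq_iff, eq_comm]

theorem permRep_character [Finite G] (H : Subgroup G) : (permRep H).character = perm H := by
  ext g
  let _ : Fintype (G ⧸ H) := Fintype.ofFinite _
  have h1 : perm H g = ∑ c : G ⧸ H, if g⁻¹ • c = c then (1 : ℚ) else 0 := by
    rw [Finset.sum_boole, perm, ← fix_inv, fix, Nat.card_eq_fintype_card, Fintype.card_subtype]
    simp
  rw [h1, Representation.character, LinearMap.trace_eq_matrix_trace ℚ (Pi.basisFun ℚ (G ⧸ H)),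
    Matrix.trace]
  refine Finset.sum_congr rfl fun c _ => ?_
  rw [Matrix.diag_apply, LinearMap.toMatrix_apply, Pi.basisFun_apply, Pi.basisFun_repr,
    permRep_apply, Pi.single_apply]

theorem isChar_perm [Finite G] (H : Subgroup G) : IsChar (perm H) :=
  ⟨G ⧸ H → ℚ, inferInstance, inferInstance, permRep H, inferInstance, (permRep_character H).symm⟩

/-! ### The signs given by the multiplicities in a representation -/

/-- The space of intertwining maps is a vector space over the field acting on the source. -/
theorem even_finrank_of_field {M D : Type} [Field M] [NumberField M] [AddCommGroup D] [Module ℚ D]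
    (φ : M →+* Module.End ℚ D) (hM : Even (finrank ℚ M)) : Even (finrank ℚ D) := by
  let _ : Module M D := Module.compHom D φ
  have h := Module.finrank_mul_finrank ℚ M D
  rw [← h]
  exact hM.mul_right _

/-- The action on the intertwining maps. -/
noncomputable def actInt {V V' M : Type} [AddCommGroup V] [Module ℚ V] [AddCommGroup V']
    [Module ℚ V'] [Field M] [NumberField M] [Module M V] (ρ : Representation ℚ G V)
    (σ : Representation ℚ G V') (h : ∀ g (x : M) v, ρ g (x • v) = x • ρ g v) :
    M →+* Module.End ℚ (IntertwiningMap ρ σ) where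
  toFun x :=
    { toFun := fun f =>
        { toFun := fun v => f (x • v)
          map_add' := fun v v' => by rw [smul_add, map_add]
          map_smul' := fun c v => by
            rw [RingHom.id_apply, ← map_smul f c, smul_comm x c v]
          isIntertwining' := fun g => by
            ext v
            change f (x • ρ g v) = σ g (f (x • v))
            rw [← h, IntertwiningMap.isIntertwining] }
      map_add' := fun f f' => by
        ext v
        rfl
      map_smul' := fun c f => by
        ext v
        rfl }
  map_one' := by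
    ext f v
    change f ((1 : M) • v) = f v
    rw [one_smul]
  map_mul' x y := by
    ext f v
    change f ((x * y) • v) = f (y • x • v)
    rw [mul_comm, mul_smul]
  map_zero' := by
    ext f v
    change f ((0 : M) • v) = 0
    rw [zero_smul, map_zero]
  map_add' x y := by
    ext f v
    change f ((x + y) • v) = f (x • v) + f (y • v)
    rw [add_smul, map_add]

variable [Fintype G]

/-- The sign of the multiplicity of a representation in `σ`. -/
noncomputable def sgn {V : Type} [AddCommGroup V] [Module ℚ V] (σ : Representation ℚ G V)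
    (χ : G → ℚ) : ℤˣ :=
  (-1) ^ ⌊(Nat.card G : ℚ)⁻¹ * ∑ g, σ.character g * χ g⁻¹⌋

variable {V : Type} [AddCommGroup V] [Module ℚ V] [FiniteDimensional ℚ V]

theorem sgn_character {U : Type} [AddCommGroup U] [Module ℚ U] [FiniteDimensional ℚ U]
    (σ : Representation ℚ G V) (ρ : Representation ℚ G U) :
    sgn σ ρ.character = (-1) ^ (finrank ℚ (IntertwiningMap ρ σ)) := by
  have : Invertible (Nat.card G : ℚ) :=
    invertibleOfNonzero (by exact_mod_cast Nat.card_pos.ne')
  rw [sgn, card_inv_mul_sum_char_mul_char_eq_finrank ρ σ, Int.floor_natCast, zpow_natCast]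

theorem pair_char {χ : G → ℚ} (σ : Representation ℚ G V) (h : IsChar χ) :
    ∃ m : ℕ, (Nat.card G : ℚ)⁻¹ * ∑ g, σ.character g * χ g⁻¹ = m := by
  obtain ⟨U, _, _, ρ, _, rfl⟩ := h
  have : Invertible (Nat.card G : ℚ) :=
    invertibleOfNonzero (by exact_mod_cast Nat.card_pos.ne')
  exact ⟨_, card_inv_mul_sum_char_mul_char_eq_finrank ρ σ⟩

theorem formal_sgn (σ : Representation ℚ G V) : Formal (sgn σ) where
  add χ χ' hχ hχ' := by
    obtain ⟨m, hm⟩ := pair_char σ hχ
    obtain ⟨m', hm'⟩ := pair_char σ hχ'
    have h : (Nat.card G : ℚ)⁻¹ * ∑ g, σ.character g * (χ + χ') g⁻¹ = ((m + m' : ℕ) : ℚ) := by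
      rw [Nat.cast_add, ← hm, ← hm', ← mul_add, ← Finset.sum_add_distrib]
      congr 1
      refine Finset.sum_congr rfl fun g _ => ?_
      rw [Pi.add_apply, mul_add]
    rw [sgn, sgn, sgn, h, hm, hm', Int.floor_natCast, Int.floor_natCast, Int.floor_natCast,
      zpow_natCast, zpow_natCast, zpow_natCast, pow_add]
  even χ hχ := by
    obtain ⟨U, _, _, ρ, M, _, _, _, _, hM, hc, rfl⟩ := hχ
    rw [sgn_character]
    exact (even_finrank_of_field (actInt ρ σ hc) hM).neg_one_pow

theorem sgn_perm (σ : Representation ℚ G V) (H : Subgroup G) :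
    sgn σ (perm H) = (-1) ^ (finrank ℚ (invariants (σ.comp H.subtype))) := by
  have hG : (Nat.card G : ℚ) ≠ 0 := by exact_mod_cast Nat.card_pos.ne'
  have h1 := finrank_inv σ H
  have h2 := sum_fix H (fun g => LinearMap.trace ℚ V (σ g)) (fun x g => char_conj σ g x)
  have h3 : (Nat.card G : ℚ)⁻¹ * ∑ g, σ.character g * perm H g⁻¹ =
      (finrank ℚ (invariants (σ.comp H.subtype)) : ℚ) := by
    rw [h1, inv_mul_eq_iff_eq_mul₀ hG, ← h2]
    refine Finset.sum_congr rfl fun g _ => ?_
    rw [perm, fix_inv, mul_comm]
    rfl
  rw [sgn, h3, Int.floor_natCast, zpow_natCast]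

end

end Pool.Agent.U865.PV
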