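import Pool.Agent.U865.PV.Chr

/-!
# Fields acting on representations
-/

set_option autoImplicit false

open Module Representation Polynomial
open scoped Classical

namespace Pool.Agent.U865.PV

section

variable {G : Type} [Group G] [Finite G]

/-- The exponents of the conjugates of a generator of a normal cyclic subgroup. -/
theorem coprime_of_conj {c g : G} {j : ℕ} (h : g * c * g⁻¹ = c ^ j) :
    Nat.Coprime (orderOf c) j := by
  have h1 : orderOf (c ^ j) = orderOf c := by
    rw [← h]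
    exact orderOf_injective (MulAut.conj g).toMonoidHom (MulAut.conj g).injective c
  have h2 : orderOf (c ^ j) = orderOf c / (orderOf c).gcd j := orderOf_pow (x := c)
  rw [h1] at h2
  have h3 : 0 < orderOf c := orderOf_pos c
  have h4 : orderOf c / (orderOf c).gcd j = orderOf c / 1 := by rw [Nat.div_one]; exact h2.symm
  have h5 : 0 < (orderOf c).gcd j := Nat.gcd_pos_of_pos_left _ h3
  obtain ⟨t, ht⟩ := Nat.gcd_dvd_left (orderOf c) j
  have h6 : orderOf c / (orderOf c).gcd j = t := Nat.div_eq_of_eq_mul_right h5 ht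
  rw [h6] at h2
  have h7 : t ≠ 0 := by
    rintro rfl
    rw [mul_zero] at ht
    omega
  have h8 : (orderOf c).gcd j * t = 1 * t := by rw [one_mul, ← ht, h2]
  exact Nat.eq_of_mul_eq_mul_right (Nat.pos_of_ne_zero h7) h8

theorem isEven_aux (K : Type) [Field K] [NumberField K] {e : ℕ} [NeZero e]
    [IsCyclotomicExtension {e} ℚ K] {U : Type} [AddCommGroup U] [Module ℚ U]
    [FiniteDimensional ℚ U] (ρ : Representation ℚ G U) (c : G) (he : e ∣ orderOf c)
    (hU : aeval (ρ c) (cyclotomic e ℚ) = 0) (hconj : ∀ g, ∃ j : ℕ, g * c * g⁻¹ = c ^ j)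
    (u : (ZMod e)ˣ) {k : ℕ} (hu : u ^ 2 ^ k = 1)
    (hnot : ∀ (g : G) (j : ℕ), g * c * g⁻¹ = c ^ j → (j : ZMod e) ≠ u) :
    IsEvenChar ρ.character := by
  -- the cyclotomic field
  let ζ : K := IsCyclotomicExtension.zeta e ℚ K
  have hζ : IsPrimitiveRoot ζ e := IsCyclotomicExtension.zeta_spec e ℚ K
  have hirr : Irreducible (cyclotomic e ℚ) := cyclotomic.irreducible_rat (NeZero.pos e)
  let pb := hζ.powerBasis ℚ
  have hgen : pb.gen = ζ := hζ.powerBasis_gen ℚ
  have hmin : minpoly ℚ pb.gen = cyclotomic e ℚ := by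
    rw [hgen]
    exact (hζ.minpoly_eq_cyclotomic_of_irreducible hirr).symm
  let φ : K →ₐ[ℚ] Module.End ℚ U := pb.lift (ρ c) (by rw [hmin]; exact hU)
  have hφ : φ ζ = ρ c := by
    rw [← hgen]
    exact pb.lift_gen _ _
  let Φ := IsCyclotomicExtension.autEquivPow K hirr
  have hΦ : ∀ v : (ZMod e)ˣ, Φ.symm v ζ = ζ ^ (v : ZMod e).val := by
    intro v
    have h := hζ.autToPow_spec ℚ (Φ.symm v)
    have h2 : hζ.autToPow ℚ (Φ.symm v) = v := Φ.apply_symm_apply v
    rw [h2] at h
    exact h.symm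
  have hpow : ∀ (v : (ZMod e)ˣ) (j : ℕ), (j : ZMod e) = v → ζ ^ (v : ZMod e).val = ζ ^ j := by
    intro v j hj
    have h1 : orderOf ζ = e := hζ.eq_orderOf.symm
    rw [← hj, ZMod.val_natCast, ← pow_mod_orderOf ζ j, h1]
  -- conjugation
  have key : ∀ (g : G) (j : ℕ) (v : (ZMod e)ˣ), g * c * g⁻¹ = c ^ j → (j : ZMod e) = v →
      ∀ x : K, ρ g * φ x * ρ g⁻¹ = φ (Φ.symm v x) := by
    intro g j v h1 h2
    have hgg : ρ g⁻¹ * ρ g = 1 := by rw [← map_mul, inv_mul_cancel, map_one]
    have hgg' : ρ g * ρ g⁻¹ = 1 := by rw [← map_mul, mul_inv_cancel, map_one]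
    let ψ : K →ₐ[ℚ] Module.End ℚ U :=
      { toFun := fun x => ρ g * φ x * ρ g⁻¹
        map_one' := by rw [map_one, mul_one, hgg']
        map_mul' := fun x y => by
          rw [map_mul]
          calc ρ g * (φ x * φ y) * ρ g⁻¹ = ρ g * φ x * 1 * φ y * ρ g⁻¹ := by
                rw [mul_one]; simp only [mul_assoc]
            _ = _ := by rw [← hgg]; simp only [mul_assoc]
        map_zero' := by rw [map_zero, mul_zero, zero_mul]
        map_add' := fun x y => by rw [map_add, mul_add, add_mul]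
        commutes' := fun q => by
          rw [AlgHom.commutes, ← Algebra.commutes, mul_assoc, hgg', mul_one] }
    have h3 : ψ = φ.comp (Φ.symm v : K →ₐ[ℚ] K) := by
      refine pb.algHom_ext ?_
      rw [hgen]
      change ρ g * φ ζ * ρ g⁻¹ = φ (Φ.symm v ζ)
      rw [hφ, hΦ, hpow v j h2, map_pow, hφ, ← map_mul, ← map_mul, h1, map_pow]
    intro x
    exact DFunLike.congr_fun h3 x
  -- the group of the automorphisms induced by `G`
  have hunit : ∀ (g : G) (j : ℕ), g * c * g⁻¹ = c ^ j → ∃ v : (ZMod e)ˣ, (j : ZMod e) = v := by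
    intro g j h
    have h1 : Nat.Coprime j e := (Nat.Coprime.coprime_dvd_left he (coprime_of_conj h)).symm
    exact ⟨ZMod.unitOfCoprime j h1, (ZMod.coe_unitOfCoprime j h1).symm⟩
  let Γ : Subgroup (ZMod e)ˣ :=
    { carrier := {v | ∃ (g : G) (j : ℕ), g * c * g⁻¹ = c ^ j ∧ (j : ZMod e) = v}
      one_mem' := ⟨1, 1, by simp, by simp⟩
      mul_mem' := by
        rintro v v' ⟨g, j, h1, h2⟩ ⟨g', j', h1', h2'⟩
        refine ⟨g * g', j * j', ?_, ?_⟩
        · have : g * g' * c * (g * g')⁻¹ = g * (g' * c * g'⁻¹) * g⁻¹ := by group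
          rw [this, h1', ← conj_pow, h1, pow_mul]
        · push_cast
          rw [h2, h2']
      inv_mem' := by
        rintro v ⟨g, j, h1, h2⟩
        obtain ⟨i, hi⟩ := hconj g⁻¹
        refine ⟨g⁻¹, i, hi, ?_⟩
        have h3 : c ^ (i * j) = c ^ 1 := by
          rw [pow_mul, ← hi, conj_pow, ← h1]
          group
        have h4 : i * j ≡ 1 [MOD e] := (pow_eq_pow_iff_modEq.1 h3).of_dvd he
        have h5 : ((i * j : ℕ) : ZMod e) = ((1 : ℕ) : ZMod e) :=
          (ZMod.natCast_eq_natCast_iff _ _ _).2 h4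
        push_cast at h5
        rw [h2] at h5
        calc (i : ZMod e) = i * v * ((v⁻¹ : (ZMod e)ˣ) : ZMod e) := by
              rw [mul_assoc, Units.mul_inv, mul_one]
          _ = _ := by rw [h5, one_mul] }
  let Δ : Subgroup Gal(K/ℚ) := Γ.comap Φ.toMonoidHom
  let M := IntermediateField.fixedField Δ
  have hgal : IsGalois ℚ K := IsCyclotomicExtension.isGalois {e} ℚ K
  have hdeg : finrank ℚ M = Δ.index := by
    have h1 := IntermediateField.finrank_eq_fixingSubgroup_index (F := ℚ) (E' := K) M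
    rw [h1, IntermediateField.fixingSubgroup_fixedField]
  have heven : Even Δ.index := by
    have h1 : Δ.index = Γ.index := Subgroup.index_comap_of_surjective Γ Φ.surjective
    rw [h1, Subgroup.index_eq_card]
    let q : (ZMod e)ˣ ⧸ Γ := (u : (ZMod e)ˣ ⧸ Γ)
    have hq : q ≠ 1 := by
      intro h
      obtain ⟨g, j, h1, h2⟩ := (QuotientGroup.eq_one_iff u).1 h
      exact hnot g j h1 h2
    have hq2 : q ^ 2 ^ k = 1 := by
      change (u : (ZMod e)ˣ ⧸ Γ) ^ 2 ^ k = 1
      rw [← QuotientGroup.mk_pow, hu]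
      rfl
    obtain ⟨i, -, hi⟩ := (Nat.dvd_prime_pow Nat.prime_two).1 (orderOf_dvd_of_pow_eq_one hq2)
    have hi0 : i ≠ 0 := by
      rintro rfl
      rw [pow_zero, orderOf_eq_one_iff] at hi
      exact hq hi
    rw [even_iff_two_dvd]
    refine (dvd_pow_self 2 hi0).trans ?_
    rw [← hi]
    exact orderOf_dvd_natCard q
  let _ : Module M U := Module.compHom U ((φ : K →+* Module.End ℚ U).comp (algebraMap M K))
  refine ⟨U, inferInstance, inferInstance, ρ, M, inferInstance, inferInstance, inferInstance,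
    inferInstance, ?_, fun g x v => ?_, rfl⟩
  · rw [hdeg]
    exact heven
  · change ρ g (φ (x : K) v) = φ (x : K) (ρ g v)
    obtain ⟨j, hj⟩ := hconj g
    obtain ⟨w, hw⟩ := hunit g j hj
    have h1 := key g j w hj hw (x : K)
    have h2 : Φ.symm w (x : K) = x := by
      have h3 : Φ.symm w ∈ Δ := by
        change Φ (Φ.symm w) ∈ Γ
        rw [MulEquiv.apply_symm_apply]
        exact ⟨g, j, hj, hw⟩
      exact x.2 ⟨Φ.symm w, h3⟩
    rw [h2] at h1
    have h4 := LinearMap.congr_fun h1 (ρ g v)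
    have h5 : ρ g⁻¹ (ρ g v) = v := by
      have : (ρ g⁻¹ * ρ g) v = v := by rw [← map_mul, inv_mul_cancel, map_one]; rfl
      exact this
    change ρ g (φ (x : K) (ρ g⁻¹ (ρ g v))) = φ (x : K) (ρ g v) at h4
    rw [h5] at h4
    exact h4

/-- **A field acting on the part of exact order `e`.** Let the restriction of the representation to the
normal cyclic subgroup generated by `c` have exact order `e`, and let some automorphism of order a
power of two of the cyclic group of order `e` not be induced by an element of `G`. Then a number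
field of even degree acts on the representation. -/
theorem isEven_of_cyclotomic {e : ℕ} [NeZero e] {U : Type} [AddCommGroup U] [Module ℚ U]
    [FiniteDimensional ℚ U] (ρ : Representation ℚ G U) (c : G) (he : e ∣ orderOf c)
    (hU : aeval (ρ c) (cyclotomic e ℚ) = 0) (hconj : ∀ g, ∃ j : ℕ, g * c * g⁻¹ = c ^ j)
    (u : (ZMod e)ˣ) {k : ℕ} (hu : u ^ 2 ^ k = 1)
    (hnot : ∀ (g : G) (j : ℕ), g * c * g⁻¹ = c ^ j → (j : ZMod e) ≠ u) :
    IsEvenChar ρ.character := by
  have h2 : @IsCyclotomicExtension {e} ℚ (CyclotomicField e ℚ) _ _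
      DivisionRing.toRatAlgebra := by
    have h0 : NeZero ((e : ℕ) : ℚ) := ⟨Nat.cast_ne_zero.2 (NeZero.ne e)⟩
    have h3 := CyclotomicField.isCyclotomicExtension e ℚ
    have h4 : (DivisionRing.toRatAlgebra : Algebra ℚ (CyclotomicField e ℚ)) =
      CyclotomicField.algebra e ℚ := Subsingleton.elim _ _
    rw [h4]
    exact h3
  have h1 : NumberField (CyclotomicField e ℚ) := inferInstance
  exact isEven_aux (CyclotomicField e ℚ) ρ c he hU hconj u hu hnot

end

end Pool.Agent.U865.PV
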