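import Pool.Agent.U865.PV.Av
import Pool.Agent.U865.PV.Bound

/-!
# Parity of the ranks of abelian varieties over the intermediate fields
-/

set_option autoImplicit false

open Module NumberField IntermediateField Representation
open scoped Classical TensorProduct

namespace Pool.Agent.U865.PV

open Pool.Agent.R333.BR (fixed ext rank_fixed)

section

variable {K F L : Type} [Field K] [Field F] [Field L] [Algebra K F] [Algebra K L] [Algebra F L]
  [IsScalarTower K F L] (A : AbVar K)

/-- An automorphism of `L` over `F`, as a homomorphism over `K`. -/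
def toK (σ : Gal(L/F)) : L →ₐ[K] L := (σ : L →ₐ[F] L).restrictScalars K

lemma toK_apply (σ : Gal(L/F)) (x : L) : toK (K := K) σ x = σ x := rfl

/-- The action of the Galois group on the points. -/
noncomputable def act : Representation ℤ Gal(L/F) (Pts A L) where
  toFun σ := (mp A (toK σ)).toIntLinearMap
  map_one' := by
    ext P
    exact mp_id A P
  map_mul' σ τ := by
    ext P
    exact (mp_mp A (toK τ) (toK σ) P).symm

lemma act_apply (σ : Gal(L/F)) (P : Pts A L) : act A σ P = mp A (toK σ) P := rfl

theorem rank_pts [Finite Gal(L/F)] {E : Type} [Field E] [Algebra K E] (f : E →ₐ[K] L)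
    (H : Subgroup Gal(L/F)) (h1 : ∀ x, (∀ σ ∈ H, σ x = x) → ∃ y, f y = x)
    (h2 : ∀ σ ∈ H, ∀ y, σ (f y) = f y) :
    Module.rank ℤ (Pts A E) = Module.rank ℤ (Representation.invariants ((act (F := F) A).comp H.subtype)) := by
  have hrange : LinearMap.range (mp A f).toIntLinearMap =
      Representation.invariants ((act (F := F) (L := L) A).comp H.subtype) := by
    ext P
    constructor
    · rintro ⟨Q, rfl⟩ g
      change mp A (toK (g : Gal(L/F))) (mp A f Q) = mp A f Q
      rw [mp_mp]
      have h3 : (toK (g : Gal(L/F))).comp f = f := by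
        ext x
        exact h2 g g.2 x
      rw [h3]
    · intro hP
      let toKe : Gal(L/F) → (L ≃ₐ[K] L) := fun σ => σ.restrictScalars K
      obtain ⟨Q, hQ⟩ := mp_descend A f (H := toKe '' (H : Set Gal(L/F)))
        (fun x hx => h1 x fun σ hσ => hx _ ⟨σ, hσ, rfl⟩) P (by
          rintro _ ⟨σ, hσ, rfl⟩
          exact hP ⟨σ, hσ⟩)
      exact ⟨Q, hQ⟩
  rw [← hrange]
  exact (LinearEquiv.ofInjective _ (mp_inj A f)).rank_eq

end

/-- The parity conjecture for the abelian variety `A` over the finite extension `F` of `K`: the rank of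
`A(F)` is finite, and it is even if and only if the root number `w F` of `A` over `F` is `1`. -/
def Parity {K : Type} [Field K] (A : AbVar K)
    (w : ∀ (F : Type) [Field F] [NumberField F] [Algebra K F], ℤˣ)
    (F : Type) [Field F] [NumberField F] [Algebra K F] : Prop :=
  ∃ r : ℕ, Module.rank ℤ (Pts A F) = r ∧ (-1 : ℤˣ) ^ r = w F

/-- The properties of the root numbers `w F` of an abelian variety over the finite extensions `F` of `K`:
for a finite Galois extension `L` of `F`, the root numbers over the intermediate fields are given by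
a function `W` (the root numbers of the twists) on the characters of the rational representations of
the Galois group which is multiplicative and has the value `1` for the representations on which a
number field of even degree acts. -/
def RootNumbers {K : Type} [Field K]
    (w : ∀ (F : Type) [Field F] [NumberField F] [Algebra K F], ℤˣ) : Prop :=
  ∀ (F L : Type) [Field F] [NumberField F] [Field L] [NumberField L] [Algebra K F] [Algebra K L]
    [Algebra F L] [IsScalarTower K F L] [IsGalois F L],
    ∃ W : (Gal(L/F) → ℚ) → ℤˣ, Formal W ∧ W (perm ⊤) = w F ∧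
      ∀ H : Subgroup Gal(L/F), W (perm H) = w (fixedField H)

section

variable {K : Type} [Field K] {A : AbVar K}
  {w : ∀ (F : Type) [Field F] [NumberField F] [Algebra K F], ℤˣ}

theorem shape_of_fail (hw : RootNumbers w) {F L : Type} [Field F] [NumberField F] [Field L]
    [NumberField L] [Algebra K F] [Algebra K L] [Algebra F L] [IsScalarTower K F L] [IsGalois F L]
    (hfail : ¬ Parity A w F) (hL : 1 < finrank F L → Parity A w L)
    (hup : ∀ H : Subgroup Gal(L/F), H ≠ ⊤ → Parity A w (fixedField H)) :
    ∃ c : Gal(L/F), FullAction c := by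
  have hfd : FiniteDimensional F L := inferInstance
  have hcard : Nat.card Gal(L/F) = finrank F L := IsGalois.card_aut_eq_finrank F L
  by_cases hone : finrank F L = 1
  · have : Subsingleton Gal(L/F) := (Nat.card_eq_one_iff_unique.1 (hcard.trans hone)).1
    exact fullAction_of_subsingleton
  have hlt : 1 < finrank F L := by
    have : 0 < finrank F L := finrank_pos
    omega
  obtain ⟨rL, hrL, -⟩ := hL hlt
  let _ : Fintype Gal(L/F) := Fintype.ofFinite _
  let σ := ext (act (F := F) (L := L) A)
  have hrank : ∀ H : Subgroup Gal(L/F), Module.rank ℚ (invariants (σ.comp H.subtype)) =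
      Module.rank ℤ (fixed (act (F := F) (L := L) A) H) := fun H => rank_fixed _ H
  -- the space is finite-dimensional
  have hfin : FiniteDimensional ℚ (ℚ ⊗[ℤ] Pts A L) := by
    refine Module.rank_lt_aleph0_iff.1 ?_
    have h1 := hrank ⊥
    have h2 : invariants (σ.comp (⊥ : Subgroup Gal(L/F)).subtype) = ⊤ := by
      rw [eq_top_iff]
      intro x _ g
      have hg : (g : Gal(L/F)) = 1 := (Subgroup.mem_bot).1 g.2
      change σ (g : Gal(L/F)) x = x
      rw [hg, map_one]
      rfl
    rw [h2, rank_top] at h1
    rw [h1]
    have h3 : Module.rank ℤ (fixed (act (F := F) (L := L) A) ⊥) ≤ Module.rank ℤ (Pts A L) :=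
      Submodule.rank_le _
    exact h3.trans_lt (by rw [hrL]; exact Cardinal.natCast_lt_aleph0)
  have hfr : ∀ (E : Type) [Field E] [Algebra K E] (f : E →ₐ[K] L) (H : Subgroup Gal(L/F)),
      (∀ x, (∀ σ ∈ H, σ x = x) → ∃ y, f y = x) → (∀ σ ∈ H, ∀ y, σ (f y) = f y) →
      Module.rank ℤ (Pts A E) = (finrank ℚ (invariants (σ.comp H.subtype)) : ℕ) := by
    intro E _ _ f H h1 h2
    rw [rank_pts A f H h1 h2, finrank_eq_rank, hrank]
    rfl
  have hsgn := fun H : Subgroup Gal(L/F) => sgn_perm σ H
  obtain ⟨W, hW, hWtop, hWH⟩ := hw F L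
  refine shape (hW.mul (formal_sgn σ)) (fun H hH => ?_) ?_
  · obtain ⟨r, hr, hrw⟩ := hup H hH
    have h1 := hfr (fixedField H) ((fixedField H).val.restrictScalars K) H
      (fun x hx => ⟨⟨x, fun m => hx m m.2⟩, rfl⟩) (fun σ hσ y => y.2 ⟨σ, hσ⟩)
    rw [hr] at h1
    have h2 : r = finrank ℚ (invariants (σ.comp H.subtype)) := by exact_mod_cast h1
    rw [hWH, hsgn, ← h2, hrw]
    exact Int.units_mul_self _
  · have h1 := hfr F (IsScalarTower.toAlgHom K F L) ⊤
      (fun x hx => by
        have h3 : x ∈ (⊥ : IntermediateField F L) := by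
          rw [← IsGalois.fixedField_top]
          exact fun m => hx m m.2
        obtain ⟨y, hy⟩ := IntermediateField.mem_bot.1 h3
        exact ⟨y, hy⟩)
      (fun σ _ y => σ.commutes y)
    rw [hWtop, hsgn]
    have h2 : w F ≠ (-1) ^ finrank ℚ (invariants (σ.comp (⊤ : Subgroup Gal(L/F)).subtype)) :=
      fun h => hfail ⟨_, h1, h.symm⟩
    rcases Int.units_eq_one_or (w F) with h3 | h3 <;>
    rcases Int.units_eq_one_or
      ((-1 : ℤˣ) ^ finrank ℚ (invariants (σ.comp (⊤ : Subgroup Gal(L/F)).subtype))) with h4 | h4
    · exact absurd (h3.trans h4.symm) h2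
    · rw [h3, h4, one_mul]
    · rw [h3, h4, mul_one]
    · exact absurd (h3.trans h4.symm) h2

/-- The field `F` is a maximal field between `K` and `L` over which the parity conjecture fails, and the
Galois group has the shape `FullAction`. -/
theorem exists_max (hw : RootNumbers w) {F₀ L : Type} [Field F₀] [NumberField F₀] [Field L]
    [NumberField L] [Algebra K F₀] [Algebra K L] [Algebra F₀ L] [IsScalarTower K F₀ L]
    [IsGalois F₀ L] (hfail : ¬ Parity A w F₀) :
    ∃ (F : Type) (_ : Field F) (_ : NumberField F) (_ : Algebra K F) (_ : Algebra F₀ F)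
      (_ : Algebra F L), IsScalarTower K F₀ F ∧ IsScalarTower K F L ∧ IsScalarTower F₀ F L ∧
      IsGalois F L ∧ ¬ Parity A w F ∧ (∃ c : Gal(L/F), FullAction c) ∧
      ∀ (F' : Type) [Field F'] [NumberField F'] [Algebra K F'] [Algebra F F'] [Algebra F' L]
        [IsScalarTower K F F'] [IsScalarTower K F' L] [IsScalarTower F F' L],
        finrank F' L < finrank F L → Parity A w F' := by
  have key : ∀ d : ℕ, ∀ (F : Type) [Field F] [NumberField F] [Algebra K F] [Algebra F₀ F]
      [Algebra F L] [IsScalarTower K F₀ F] [IsScalarTower K F L] [IsScalarTower F₀ F L],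
      finrank F L = d → ¬ Parity A w F →
    ∃ (F : Type) (_ : Field F) (_ : NumberField F) (_ : Algebra K F) (_ : Algebra F₀ F)
      (_ : Algebra F L), IsScalarTower K F₀ F ∧ IsScalarTower K F L ∧ IsScalarTower F₀ F L ∧
      IsGalois F L ∧ ¬ Parity A w F ∧ (∃ c : Gal(L/F), FullAction c) ∧
      ∀ (F' : Type) [Field F'] [NumberField F'] [Algebra K F'] [Algebra F F'] [Algebra F' L]
        [IsScalarTower K F F'] [IsScalarTower K F' L] [IsScalarTower F F' L],
        finrank F' L < finrank F L → Parity A w F' := by
    intro d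
    induction d using Nat.strong_induction_on with
    | _ d ih =>
      intro F _ _ _ _ _ _ _ _ hd hF
      by_cases hall : ∀ (F' : Type) [Field F'] [NumberField F'] [Algebra K F'] [Algebra F F']
          [Algebra F' L] [IsScalarTower K F F'] [IsScalarTower K F' L] [IsScalarTower F F' L],
          finrank F' L < finrank F L → Parity A w F'
      · have hgal : IsGalois F L := IsGalois.tower_top_of_isGalois F₀ F L
        refine ⟨F, inferInstance, inferInstance, inferInstance, inferInstance, inferInstance,
          inferInstance, inferInstance, inferInstance, hgal, hF, ?_, hall⟩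
        refine shape_of_fail hw hF (fun h => hall L (by rwa [finrank_self])) fun H hH => ?_
        have h1 : finrank F (fixedField H) * finrank (fixedField H) L = finrank F L :=
          Module.finrank_mul_finrank _ _ _
        have h2 : finrank F (fixedField H) ≠ 1 := by
          intro h3
          rw [IntermediateField.finrank_eq_one_iff] at h3
          apply hH
          rw [← IntermediateField.fixingSubgroup_fixedField H, h3,
            IntermediateField.fixingSubgroup_bot]
        have h3 : 0 < finrank F (fixedField H) := finrank_pos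
        have h4 : 0 < finrank (fixedField H) L := finrank_pos
        have h5 : finrank (fixedField H) L < finrank F L := by
          rw [← h1]
          exact lt_mul_of_one_lt_left h4 (by omega)
        have h6 : IsScalarTower K (fixedField H) L := IsScalarTower.of_algebraMap_eq fun x => rfl
        exact hall (fixedField H) h5
      · push Not at hall
        obtain ⟨F', i1, i2, i3, i4, i5, i6, i7, i8, hlt, hF'⟩ := hall
        let _ : Algebra F₀ F' := ((algebraMap F F').comp (algebraMap F₀ F)).toAlgebra
        have j1 : IsScalarTower F₀ F F' := IsScalarTower.of_algebraMap_eq fun x => rfl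
        have j2 : IsScalarTower K F₀ F' := IsScalarTower.of_algebraMap_eq fun x => by
          rw [IsScalarTower.algebraMap_apply F₀ F F', ← IsScalarTower.algebraMap_apply K F₀ F,
            ← IsScalarTower.algebraMap_apply K F F']
        have j3 : IsScalarTower F₀ F' L := IsScalarTower.of_algebraMap_eq fun x => by
          rw [IsScalarTower.algebraMap_apply F₀ F F', ← IsScalarTower.algebraMap_apply F F' L,
            ← IsScalarTower.algebraMap_apply F₀ F L]
        exact ih _ (hd ▸ hlt) F' rfl hF'
  exact key _ F₀ rfl hfail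

end

/-! ### The action on the points of order `p` -/

section

variable {K F L : Type} [Field K] [Field F] [Field L] [Algebra K F] [Algebra K L] [Algebra F L]
  [IsScalarTower K F L]

/-- The point `σ P`, for `σ` in the Galois group of `L / F` and a point `P` of `A` over `L`. -/
noncomputable def move (A : AbVar K) (σ : Gal(L/F)) (P : Pts A L) : Pts A L := mpFun A (toK σ) P

lemma act_eq_move (A : AbVar K) (σ : Gal(L/F)) (P : Pts A L) : act A σ P = move A σ P := rfl

/-- `p P = 0`. -/
def IsTors {A : AbVar K} (p : ℕ) (P : Pts A L) : Prop := p • P = 0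

/-- If `A` has `p ^ m` points `P` over `L` with `p P = 0`, `p` a prime number, and a power of `c` acts on
the group of these points as an element of prime order `q ≠ p`, then the subgroup of `(ℤ / q)ˣ`
generated by `p` and all elements of order a power of two has at most `m` elements. -/
def TorsionBound (A : AbVar K) (c : Gal(L/F)) : Prop :=
  ∀ p m : ℕ, p.Prime → Nat.card {P : Pts A L // IsTors p P} = p ^ m →
    ∀ q i : ℕ, q.Prime → q ≠ p → (∀ P : Pts A L, IsTors p P → move A (c ^ (i * q)) P = P) →
      (∃ P : Pts A L, IsTors p P ∧ move A (c ^ i) P ≠ P) → Nat.card (genBy p q) ≤ m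

theorem torsionBound (A : AbVar K) [Finite Gal(L/F)] {c : Gal(L/F)} (hc : FullAction c) :
    TorsionBound A c := by
  obtain ⟨-, -, -, hfull⟩ := hc
  intro p m hp hcard q i hq hqp h1 h2
  simp only [← act_eq_move, IsTors] at h1 h2
  have : Fact p.Prime := ⟨hp⟩
  have : Fact q.Prime := ⟨hq⟩
  let V : AddSubgroup (Pts A L) :=
    { carrier := {P | p • P = 0}
      zero_mem' := smul_zero p
      add_mem' := fun {P Q} hP hQ => by
        change p • (P + Q) = 0
        rw [smul_add, show p • P = 0 from hP, show p • Q = 0 from hQ, add_zero]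
      neg_mem' := fun {P} hP => by
        change p • (-P) = 0
        rw [smul_neg, show p • P = 0 from hP, neg_zero] }
  have hV : ∀ v : V, p • v = 0 := fun v => Subtype.ext v.2
  have hstab : ∀ (σ : Gal(L/F)) (P : Pts A L), p • P = 0 → p • act A σ P = 0 := by
    intro σ P hP
    rw [← map_nsmul, hP, map_zero]
  let ρ : Gal(L/F) → V →+ V := fun σ =>
    { toFun := fun v => (⟨act A σ v, hstab σ v v.2⟩ : V)
      map_zero' := Subtype.ext (map_zero _)
      map_add' := fun v v' => Subtype.ext (map_add _ _ _) }
  have hρ : ∀ (σ : Gal(L/F)) (v : V), ((ρ σ v : V) : Pts A L) = act A σ v := fun σ v => rfl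
  have hρ1 : ∀ v, ρ 1 v = v := fun v => Subtype.ext (by
    rw [hρ, map_one]
    rfl)
  have hρm : ∀ g h v, ρ (g * h) v = ρ g (ρ h v) := fun g h v => Subtype.ext (by
    rw [hρ, map_mul]
    rfl)
  have hqc : q ∣ orderOf c := by
    by_contra hcon
    obtain ⟨P, hP, hP2⟩ := h2
    apply hP2
    have hcop : Nat.Coprime q (orderOf c) := (Nat.Prime.coprime_iff_not_dvd hq).2 hcon
    have hcop' : Nat.Coprime q (orderOf (c ^ i)) := hcop.coprime_dvd_right (orderOf_pow_dvd i)
    obtain ⟨s, hs⟩ := exists_pow_eq_self_of_coprime hcop'
    have h3 : ∀ k : ℕ, act A ((c ^ (i * q)) ^ k) P = P := by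
      intro k
      induction k with
      | zero =>
        rw [pow_zero, map_one]
        rfl
      | succ k ih =>
        rw [pow_succ, map_mul]
        change act A ((c ^ (i * q)) ^ k) (act A (c ^ (i * q)) P) = P
        rw [h1 P hP, ih]
    rw [← hs, ← pow_mul c i q]
    exact h3 s
  refine card_genBy hqp.symm hV hcard ρ hρ1 hρm (c ^ i) (fun v => Subtype.ext ?_) ?_
    fun u hu => ?_
  · rw [hρ, ← pow_mul]
    exact h1 v v.2
  · obtain ⟨P, hP, hP2⟩ := h2
    exact ⟨⟨P, hP⟩, fun h => hP2 (congrArg Subtype.val h)⟩
  · obtain ⟨g, j, hg, hj⟩ := hfull q hq.squarefree hqc u hu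
    refine ⟨g, j, hj, ?_⟩
    rw [← conj_pow, hg, ← pow_mul, ← pow_mul, mul_comm]

end

end Pool.Agent.U865.PV
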