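import Pool.Agent.U865.PV.Dec

/-!
# The invariants of the subgroups of the cyclic group
-/

set_option autoImplicit false

open Module Representation Polynomial
open scoped Classical

namespace Pool.Agent.U865.PV

section

variable {G : Type} [Group G]

lemma normal_zpowers {c : G} (hconj : ∀ g, ∃ j : ℕ, g * c * g⁻¹ = c ^ j) (d : ℕ) :
    (Subgroup.zpowers (c ^ d)).Normal := by
  refine ⟨?_⟩
  rintro _ ⟨k, rfl⟩ g
  obtain ⟨j, hj⟩ := hconj g
  refine ⟨j * k, ?_⟩
  change (c ^ d) ^ ((j : ℤ) * k) = g * (c ^ d) ^ k * g⁻¹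
  rw [← conj_zpow, ← conj_pow, hj, zpow_mul, zpow_natCast, ← pow_mul, ← pow_mul, mul_comm]

/-- The subgroup generated by `c ^ d` and `P`. -/
def tg (c : G) (P : Subgroup G) (d : ℕ) : Subgroup G := Subgroup.zpowers (c ^ d) ⊔ P

lemma mem_tg {c : G} (hconj : ∀ g, ∃ j : ℕ, g * c * g⁻¹ = c ^ j) (P : Subgroup G) (d : ℕ) {x : G}
    (hx : x ∈ tg c P d) : ∃ m ∈ Subgroup.zpowers (c ^ d), ∃ q ∈ P, x = m * q := by
  have := normal_zpowers hconj d
  have h1 : x ∈ (↑(Subgroup.zpowers (c ^ d) ⊔ P) : Set G) := hx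
  rw [Subgroup.normal_mul] at h1
  obtain ⟨m, hm, q, hq, h⟩ := h1
  exact ⟨m, hm, q, hq, h.symm⟩

theorem part_perm [Finite G] {c : G} (hconj : ∀ g, ∃ j : ℕ, g * c * g⁻¹ = c ^ j)
    (P : Subgroup G) (d : ℕ) (hg : Good (orderOf c) (X ^ d - 1)) :
    (part (permRep P) hconj hg).character = perm (tg c P d) := by
  have hN := normal_zpowers hconj d
  rw [← permRep_character]
  have hle : P ≤ tg c P d := le_sup_right
  let π : G ⧸ P → G ⧸ tg c P d := Subgroup.quotientMapOfLE hle
  have hπ : ∀ (g : G) (x : G ⧸ P), π (g • x) = g • π x := by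
    intro g x
    obtain ⟨y, rfl⟩ := QuotientGroup.mk_surjective x
    rfl
  have hπs : Function.Surjective π := by
    intro y
    obtain ⟨y, rfl⟩ := QuotientGroup.mk_surjective y
    exact ⟨(y : G ⧸ P), rfl⟩
  have hker : ∀ f : G ⧸ P → ℚ, f ∈ LinearMap.ker (aeval (permRep P c) (X ^ d - 1 : ℚ[X])) ↔
      ∀ m ∈ Subgroup.zpowers (c ^ d), ∀ x, f (m • x) = f x := by
    intro f
    have h1 : f ∈ LinearMap.ker (aeval (permRep P c) (X ^ d - 1 : ℚ[X])) ↔
        ∀ x, f ((c ^ d)⁻¹ • x) = f x := by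
      rw [LinearMap.mem_ker, map_sub, map_pow, aeval_X, map_one, ← map_pow, LinearMap.sub_apply,
        sub_eq_zero, funext_iff]
      rfl
    rw [h1]
    constructor
    · intro h m hm
      let Sf : Subgroup G :=
        { carrier := {m | ∀ x, f (m • x) = f x}
          one_mem' := fun x => by rw [one_smul]
          mul_mem' := fun {a b} ha hb x => by rw [mul_smul, ha, hb]
          inv_mem' := fun {a} ha x => by rw [← ha (a⁻¹ • x), smul_inv_smul] }
      have h2 : (c ^ d)⁻¹ ∈ Sf := h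
      have h3 : Subgroup.zpowers (c ^ d) ≤ Sf := by
        rw [Subgroup.zpowers_le]
        exact Sf.inv_mem_iff.1 h2
      exact h3 hm
    · intro h x
      exact h _ (Subgroup.inv_mem _ (Subgroup.mem_zpowers _)) x
  let F : (G ⧸ tg c P d → ℚ) →ₗ[ℚ] LinearMap.ker (aeval (permRep P c) (X ^ d - 1 : ℚ[X])) :=
    LinearMap.codRestrict _ (LinearMap.funLeft ℚ ℚ π) (by
      intro f
      rw [hker]
      intro m hm x
      change f (π (m • x)) = f (π x)
      rw [hπ]
      congr 1
      obtain ⟨y, hy⟩ := QuotientGroup.mk_surjective (π x)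
      rw [← hy]
      change ((m * y : G) : G ⧸ tg c P d) = (y : G ⧸ tg c P d)
      rw [eq_comm, QuotientGroup.eq]
      have h1 : y⁻¹ * (m * y) = y⁻¹ * m * y⁻¹⁻¹ := by group
      rw [h1]
      exact (le_sup_left : _ ≤ tg c P d) (hN.conj_mem m hm y⁻¹))
  have hF : ∀ f x, (F f : G ⧸ P → ℚ) x = f (π x) := fun f x => rfl
  have hinj : Function.Injective F := by
    intro f f' h
    funext y
    obtain ⟨x, rfl⟩ := hπs y
    rw [← hF f x, ← hF f' x, h]
  have hsurj : Function.Surjective F := by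
    rintro ⟨f, hf⟩
    rw [hker] at hf
    choose s hs using hπs
    refine ⟨fun y => f (s y), ?_⟩
    apply Subtype.ext
    funext x
    rw [hF]
    change f (s (π x)) = f x
    obtain ⟨a, ha⟩ := QuotientGroup.mk_surjective (s (π x))
    obtain ⟨b, rfl⟩ := QuotientGroup.mk_surjective x
    have h1 : π (a : G ⧸ P) = π (b : G ⧸ P) := by rw [ha, hs]
    have h2 : (b : G ⧸ tg c P d) = (a : G ⧸ tg c P d) := h1.symm
    obtain ⟨m, hm, q, hq, h3⟩ := mem_tg hconj P d (QuotientGroup.eq.1 h2)
    rw [← ha]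
    have h4 : (a : G ⧸ P) = ((b * m * b⁻¹ : G) • (b : G ⧸ P)) := by
      change (a : G ⧸ P) = ((b * m * b⁻¹ * b : G) : G ⧸ P)
      have h5 : a = b * m * q := by
        rw [mul_assoc, ← h3]
        group
      rw [eq_comm, QuotientGroup.eq, h5]
      have h6 : (b * m * b⁻¹ * b)⁻¹ * (b * m * q) = q := by group
      rw [h6]
      exact hq
    rw [h4]
    exact hf _ (hN.conj_mem m hm b) _
  let e := LinearEquiv.ofBijective F ⟨hinj, hsurj⟩
  ext g
  rw [Representation.character, Representation.character]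
  have h7 : (part (permRep P) hconj hg) g = e.conj ((permRep (tg c P d)) g) := by
    refine LinearMap.ext fun y => ?_
    obtain ⟨f, rfl⟩ := e.surjective y
    rw [LinearEquiv.conj_apply_apply, LinearEquiv.symm_apply_apply]
    apply Subtype.ext
    funext x
    change f (π (g⁻¹ • x)) = f (g⁻¹ • π x)
    rw [hπ]
  rw [h7, LinearMap.trace_conj']

/-! ### The shape of the group -/

/-- The number of the divisors of a squarefree number different from `1` is even. -/
lemma even_divisors {d : ℕ} (hd : Squarefree d) (h1 : d ≠ 1) : Even d.divisors.card := by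
  obtain ⟨q, hq, e, rfl⟩ := Nat.exists_prime_and_dvd h1
  have h0 : q * e ≠ 0 := hd.ne_zero
  have hcop : Nat.Coprime q e := Nat.coprime_of_squarefree_mul hd
  rw [hcop.card_divisors_mul, hq.divisors, Finset.card_pair hq.one_lt.ne]
  exact even_two_mul _

lemma aeval_sub {U : Type} [AddCommGroup U] [Module ℚ U] (ρ : Representation ℚ G U)
    (S : Submodule ℚ U) (hS : ∀ g, ∀ v ∈ S, ρ g v ∈ S) (c : G) (p : ℚ[X]) (v : S) :
    ((aeval (sub ρ S hS c) p v : S) : U) = aeval (ρ c) p (v : U) := by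
  induction p using Polynomial.induction_on' with
  | add p q hp hq =>
    rw [map_add, map_add, LinearMap.add_apply, LinearMap.add_apply, Submodule.coe_add, hp, hq]
  | monomial n a =>
    rw [aeval_monomial, aeval_monomial, ← map_pow, ← map_pow]
    rfl

lemma aeval_part [Finite G] {U : Type} [AddCommGroup U] [Module ℚ U] (ρ : Representation ℚ G U)
    {c : G} (hconj : ∀ g, ∃ j : ℕ, g * c * g⁻¹ = c ^ j) {p : ℚ[X]} (hp : Good (orderOf c) p) :
    aeval (part ρ hconj hp c) p = 0 := by
  refine LinearMap.ext fun v => Subtype.ext ?_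
  rw [part, aeval_sub]
  exact v.2

/-- **The signs determine the shape of the group.** -/
theorem full_action [Finite G] {W : (G → ℚ) → ℤˣ} (hW : Formal W)
    (h1 : ∀ H : Subgroup G, H ≠ ⊤ → W (perm H) = 1) (htop : W (perm (⊤ : Subgroup G)) = -1)
    {c : G} (hodd : Odd (orderOf c)) (hconj : ∀ g, ∃ j : ℕ, g * c * g⁻¹ = c ^ j)
    (hpow : ∀ g : G, ∃ k : ℕ, g ^ 2 ^ k ∈ Subgroup.zpowers c) {e : ℕ} (hsq : Squarefree e)
    (he : e ∣ orderOf c) (u : (ZMod e)ˣ) {k : ℕ} (hu : u ^ 2 ^ k = 1) :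
    ∃ (g : G) (j : ℕ), g * c * g⁻¹ = c ^ j ∧ (j : ZMod e) = u := by
  have : Fact (Nat.Prime 2) := ⟨Nat.prime_two⟩
  -- the complement
  obtain ⟨P⟩ : Nonempty (Sylow 2 G) := inferInstance
  have hN : (Subgroup.zpowers c).Normal := by
    have := normal_zpowers hconj 1
    rwa [pow_one] at this
  have hdisj : ∀ x ∈ Subgroup.zpowers c, x ∈ (P : Subgroup G) → x = 1 := by
    intro x hx hxP
    obtain ⟨i, hi⟩ := (IsPGroup.iff_orderOf.1 P.2) ⟨x, hxP⟩
    have h2 : orderOf x = 2 ^ i := by
      rw [← hi]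
      exact (Subgroup.orderOf_mk x hxP).symm
    have h3 : orderOf x ∣ orderOf c := orderOf_dvd_of_mem_zpowers hx
    have h4 : Odd (orderOf x) := hodd.of_dvd_nat h3
    have h5 : i = 0 := by
      by_contra h
      rw [h2] at h4
      exact (Nat.not_even_iff_odd.2 h4) ((Nat.even_pow.2 ⟨even_two, h⟩))
    rw [h5, pow_zero] at h2
    exact orderOf_eq_one_iff.1 h2
  have hgen : tg c P 1 = ⊤ := by
    rw [tg, pow_one, ← Subgroup.index_eq_one]
    have h2 : (Subgroup.zpowers c ⊔ (P : Subgroup G)).index ∣ (P : Subgroup G).index :=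
      Subgroup.index_dvd_of_le le_sup_right
    have h3 : (Subgroup.zpowers c ⊔ (P : Subgroup G)).index ∣ (Subgroup.zpowers c).index :=
      Subgroup.index_dvd_of_le le_sup_left
    have h4 : IsPGroup 2 (G ⧸ Subgroup.zpowers c) := by
      intro q
      obtain ⟨g, rfl⟩ := QuotientGroup.mk_surjective q
      obtain ⟨j, hj⟩ := hpow g
      refine ⟨j, ?_⟩
      rw [← QuotientGroup.mk_pow]
      exact (QuotientGroup.eq_one_iff _).2 hj
    obtain ⟨i, hi⟩ := IsPGroup.iff_card.1 h4
    rw [Subgroup.index_eq_card (Subgroup.zpowers c), hi] at h3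
    obtain ⟨l, -, hl⟩ := (Nat.dvd_prime_pow Nat.prime_two).1 h3
    have h5 : ¬ 2 ∣ (P : Subgroup G).index := P.not_dvd_index
    rw [hl] at h2 ⊢
    by_cases h6 : l = 0
    · rw [h6, pow_zero]
    · exact absurd ((dvd_pow_self 2 h6).trans h2) h5
  have hne : ∀ d, d ∣ orderOf c → d ≠ 1 → tg c P d ≠ ⊤ := by
    intro d hd hd1 htop
    obtain ⟨m, hm, q, hq, h⟩ := mem_tg hconj (P : Subgroup G) d (x := c) (by rw [htop]; trivial)
    have hmc : m ∈ Subgroup.zpowers c := by
      have : Subgroup.zpowers (c ^ d) ≤ Subgroup.zpowers c := by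
        rw [Subgroup.zpowers_le]
        exact Subgroup.pow_mem _ (Subgroup.mem_zpowers c) d
      exact this hm
    have h2 : q = 1 := by
      refine hdisj q ?_ hq
      have h3 : q = m⁻¹ * c := by
        conv_rhs => rw [h]
        rw [inv_mul_cancel_left]
      rw [h3]
      exact Subgroup.mul_mem _ (Subgroup.inv_mem _ hmc) (Subgroup.mem_zpowers c)
    rw [h2, mul_one] at h
    obtain ⟨i, hi⟩ := hm
    have h3 : c ^ ((d : ℤ) * i - 1) = 1 := by
      rw [zpow_sub_one, zpow_mul, zpow_natCast]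
      change (fun x => (c ^ d) ^ x) i * c⁻¹ = 1
      rw [hi, ← h, mul_inv_cancel]
    have h4 : ((orderOf c : ℕ) : ℤ) ∣ (d : ℤ) * i - 1 := orderOf_dvd_iff_zpow_eq_one.2 h3
    have h5 : (d : ℤ) ∣ (d : ℤ) * i - 1 := (Int.natCast_dvd_natCast.2 hd).trans h4
    have h6 : (d : ℤ) ∣ 1 := by
      have := dvd_sub (Dvd.intro i rfl : (d : ℤ) ∣ d * i) h5
      rwa [sub_sub_cancel] at this
    exact hd1 (Nat.dvd_one.1 (by exact_mod_cast h6))
  -- the signs of the parts
  let S : ℕ → ℤˣ := fun e => if h : e ∣ orderOf c ∧ e ≠ 0 then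
    W (part (permRep (P : Subgroup G)) hconj (good_cyclotomic h.1 h.2)).character else 1
  have hS : ∀ e, ∀ he : e ∣ orderOf c, ∀ h0 : e ≠ 0,
      W (part (permRep (P : Subgroup G)) hconj (good_cyclotomic he h0)).character = S e := by
    intro e he h0
    simp only [S]
    rw [dif_pos ⟨he, h0⟩]
  have hprod : ∀ d, d ∣ orderOf c → d ≠ 0 → W (perm (tg c P d)) = ∏ e ∈ d.divisors, S e := by
    intro d hd hd0
    have hD : ∀ e ∈ d.divisors, e ∣ orderOf c ∧ e ≠ 0 := by
      intro e he
      have h2 := Nat.dvd_of_mem_divisors he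
      exact ⟨h2.trans hd, fun h0 => hd0 (by rw [h0] at h2; exact Nat.eq_zero_of_zero_dvd h2)⟩
    have h2 := prod_cyclotomic_eq_X_pow_sub_one (Nat.pos_of_ne_zero hd0) ℚ
    have h3 : Good (orderOf c) (X ^ d - 1) := by
      rw [← h2]
      exact good_prod _ hD
    rw [← part_prod hW (permRep (P : Subgroup G)) hconj S hS _ hD, ← part_perm hconj _ d h3]
    congr 1
    exact part_congr _ _ _ _ h2.symm
  have hneg : ∀ d, Squarefree d → d ∣ orderOf c → S d = -1 := by
    intro d
    induction d using Nat.strong_induction_on with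
    | _ d ih =>
      intro hsqd hd
      have h2 := hprod d hd hsqd.ne_zero
      by_cases hd1 : d = 1
      · rw [hd1, Nat.divisors_one, Finset.prod_singleton, hgen, htop] at h2
        rw [hd1]
        exact h2.symm
      · rw [h1 _ (hne d hd hd1), ← Nat.insert_self_properDivisors hsqd.ne_zero,
          Finset.prod_insert Nat.self_notMem_properDivisors] at h2
        have h3 : ∏ e ∈ d.properDivisors, S e = ∏ _e ∈ d.properDivisors, (-1 : ℤˣ) := by
          refine Finset.prod_congr rfl fun e he => ?_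
          have h4 := Nat.mem_properDivisors.1 he
          exact ih e h4.2 (hsqd.squarefree_of_dvd h4.1) (h4.1.trans hd)
        have h5 := even_divisors hsqd hd1
        rw [← Nat.insert_self_properDivisors hsqd.ne_zero,
          Finset.card_insert_of_notMem Nat.self_notMem_properDivisors] at h5
        have h6 : Odd d.properDivisors.card := by
          rw [← Nat.not_even_iff_odd]
          intro h7
          exact (Nat.not_even_iff_odd.2 h7.add_one) h5
        rw [h3, Finset.prod_const, h6.neg_one_pow] at h2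
        have h7 : S d * -1 = -1 * -1 := by rw [← h2]; rfl
        exact mul_right_cancel h7
  -- the conclusion
  by_contra hcon
  push Not at hcon
  have : NeZero e := ⟨hsq.ne_zero⟩
  have h2 := isEven_of_cyclotomic (part (permRep (P : Subgroup G)) hconj
    (good_cyclotomic he hsq.ne_zero)) c he (aeval_part _ _ _) hconj u hu hcon
  have h3 := hW.even _ h2
  rw [hS e he hsq.ne_zero, hneg e hsq he] at h3
  exact absurd h3 (by decide)

end

end Pool.Agent.U865.PV
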